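import Pool.Agent.Work.MP_91aed7_gr.Interface

/-!
# AFF: automorphisms of degree at most one are tame
-/

set_option autoImplicit false

namespace Pool.GR

open MvPolynomial Pool.AM

theorem AFF_ext {k : Type} [Field k] {n : ℕ} {σ τ : Au k n} (h : ∀ i, σ (X i) = τ (X i)) :
    σ = τ := by
  have h1 : (σ : MvPolynomial (Fin n) k →ₐ[k] MvPolynomial (Fin n) k) =
      (τ : MvPolynomial (Fin n) k →ₐ[k] MvPolynomial (Fin n) k) := by
    apply MvPolynomial.algHom_ext
    intro i
    exact h i
  apply AlgEquiv.ext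
  intro p
  exact DFunLike.congr_fun h1 p

/-- the elementary automorphism `X i ↦ X i + f` for a polynomial `f` fixed by the substitution -/
theorem AFF_el {k : Type} [Field k] {n : ℕ} (i : Fin n) (f : MvPolynomial (Fin n) k)
    (hi : i ∉ f.vars) : ∃ τ ∈ Tm k (Fin n), τ (X i) = X i + f ∧ ∀ j, j ≠ i → τ (X j) = X j := by
  classical
  have hfix : ∀ g : MvPolynomial (Fin n) k,
      aeval (fun j => if j = i then X i + g else (X j : MvPolynomial (Fin n) k)) f = f := by
    intro g
    have h1 : aeval (fun j => if j = i then X i + g else (X j : MvPolynomial (Fin n) k)) f =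
        aeval (fun j => (X j : MvPolynomial (Fin n) k)) f := by
      apply MvPolynomial.eval₂Hom_congr' rfl _ rfl
      intro j hj _
      have : j ≠ i := fun h => hi (h ▸ hj)
      simp [this]
    rw [h1]
    exact MvPolynomial.aeval_X_left_apply f
  let u : MvPolynomial (Fin n) k →ₐ[k] MvPolynomial (Fin n) k :=
    aeval (fun j => if j = i then X i + f else (X j : MvPolynomial (Fin n) k))
  let v : MvPolynomial (Fin n) k →ₐ[k] MvPolynomial (Fin n) k :=
    aeval (fun j => if j = i then X i + (-f) else (X j : MvPolynomial (Fin n) k))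
  have huf : u f = f := hfix f
  have hvf : v f = f := hfix (-f)
  have hu : ∀ j, u (X j) = if j = i then X i + f else X j := fun j => by simp [u]
  have hv : ∀ j, v (X j) = if j = i then X i + (-f) else X j := fun j => by simp [v]
  let τ : Au k n := AlgEquiv.ofAlgHom u v
    (by
      apply MvPolynomial.algHom_ext
      intro j
      rw [AlgHom.comp_apply, AlgHom.id_apply, hv]
      by_cases h : j = i
      · subst h
        rw [if_pos rfl, map_add, map_neg, hu, if_pos rfl, huf]
        ring
      · rw [if_neg h, hu, if_neg h])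
    (by
      apply MvPolynomial.algHom_ext
      intro j
      rw [AlgHom.comp_apply, AlgHom.id_apply, hu]
      by_cases h : j = i
      · subst h
        rw [if_pos rfl, map_add, hv, if_pos rfl, hvf]
        ring
      · rw [if_neg h, hv, if_neg h])
  have hτ : ∀ j, τ (X j) = if j = i then X i + f else X j := fun j => hu j
  have h1 : τ (X i) = X i + f := by rw [hτ, if_pos rfl]
  have h2 : ∀ j, j ≠ i → τ (X j) = X j := fun j hj => by rw [hτ, if_neg hj]
  exact ⟨τ, Subgroup.subset_closure (Or.inl ⟨i, f, hi, h1, h2⟩), h1, h2⟩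

theorem AFF_sc {k : Type} [Field k] {n : ℕ} (i : Fin n) (c : k) (hc : c ≠ 0) :
    ∃ τ ∈ Tm k (Fin n), τ (X i) = C c * X i ∧ ∀ j, j ≠ i → τ (X j) = X j := by
  classical
  let w : k → MvPolynomial (Fin n) k →ₐ[k] MvPolynomial (Fin n) k := fun d =>
    aeval (fun j => if j = i then C d * X i else (X j : MvPolynomial (Fin n) k))
  have hw : ∀ d j, w d (X j) = if j = i then C d * X i else X j := fun d j => by simp [w]
  have hC : ∀ d e, w d (C e) = C e := fun d e => by
    rw [MvPolynomial.algHom_C]; rfl
  have hcomp : ∀ d e : k, d * e = 1 → (w d).comp (w e) = AlgHom.id k _ := by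
    intro d e hde
    apply MvPolynomial.algHom_ext
    intro j
    rw [AlgHom.comp_apply, AlgHom.id_apply, hw]
    by_cases h : j = i
    · subst h
      rw [if_pos rfl, map_mul, hw, if_pos rfl, hC, ← mul_assoc, ← C_mul, mul_comm e d, hde, C_1,
        one_mul]
    · rw [if_neg h, hw, if_neg h]
  let τ : Au k n := AlgEquiv.ofAlgHom (w c) (w c⁻¹) (hcomp _ _ (mul_inv_cancel₀ hc))
    (hcomp _ _ (inv_mul_cancel₀ hc))
  have hτ : ∀ j, τ (X j) = if j = i then C c * X i else X j := fun j => hw c j
  have h1 : τ (X i) = C c * X i := by rw [hτ, if_pos rfl]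
  have h2 : ∀ j, j ≠ i → τ (X j) = X j := fun j hj => by rw [hτ, if_neg hj]
  exact ⟨τ, Subgroup.subset_closure (Or.inr ⟨i, c, hc, h1, h2⟩), h1, h2⟩

theorem AFF_fixC {k : Type} [Field k] {n : ℕ} (τ : Au k n) (c : k) : τ (C c) = C c :=
  τ.commutes c

theorem AFF_trans {k : Type} [Field k] {n : ℕ} (b : Fin n → k) (s : Finset (Fin n)) :
    ∃ τ ∈ Tm k (Fin n), (∀ i ∈ s, τ (X i) = X i + C (b i)) ∧ ∀ i ∉ s, τ (X i) = X i := by
  classical
  induction s using Finset.induction_on with
  | empty => exact ⟨1, Subgroup.one_mem _, fun i hi => absurd hi (Finset.notMem_empty i),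
      fun i _ => rfl⟩
  | insert a s ha ih =>
    obtain ⟨τ, hτ, h1, h2⟩ := ih
    obtain ⟨ε, hε, h3, h4⟩ := AFF_el a (C (b a) : MvPolynomial (Fin n) k) (by simp [vars_C])
    refine ⟨ε * τ, Subgroup.mul_mem _ hε hτ, fun i hi => ?_, fun i hi => ?_⟩
    · rw [AlgEquiv.mul_apply]
      rcases Finset.mem_insert.1 hi with h | h
      · subst h
        rw [h2 _ ha, h3]
      · have hne : i ≠ a := fun h' => ha (h' ▸ h)
        rw [h1 i h, map_add, h4 i hne, AFF_fixC]
    · rw [AlgEquiv.mul_apply]
      have hne : i ≠ a := fun h' => hi (h' ▸ Finset.mem_insert_self _ _)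
      have hs : i ∉ s := fun h' => hi (Finset.mem_insert_of_mem h')
      rw [h2 i hs, h4 i hne]

theorem AFF_diag {k : Type} [Field k] {n : ℕ} (D : Fin n → k) (hD : ∀ i, D i ≠ 0)
    (s : Finset (Fin n)) :
    ∃ τ ∈ Tm k (Fin n), (∀ i ∈ s, τ (X i) = C (D i) * X i) ∧ ∀ i ∉ s, τ (X i) = X i := by
  classical
  induction s using Finset.induction_on with
  | empty => exact ⟨1, Subgroup.one_mem _, fun i hi => absurd hi (Finset.notMem_empty i),
      fun i _ => rfl⟩
  | insert a s ha ih =>
    obtain ⟨τ, hτ, h1, h2⟩ := ih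
    obtain ⟨ε, hε, h3, h4⟩ := AFF_sc a (D a) (hD a)
    refine ⟨ε * τ, Subgroup.mul_mem _ hε hτ, fun i hi => ?_, fun i hi => ?_⟩
    · rw [AlgEquiv.mul_apply]
      rcases Finset.mem_insert.1 hi with h | h
      · subst h
        rw [h2 _ ha, h3]
      · have hne : i ≠ a := fun h' => ha (h' ▸ h)
        rw [h1 i h, map_mul, h4 i hne, AFF_fixC]
    · rw [AlgEquiv.mul_apply]
      have hne : i ≠ a := fun h' => hi (h' ▸ Finset.mem_insert_self _ _)
      have hs : i ∉ s := fun h' => hi (Finset.mem_insert_of_mem h')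
      rw [h2 i hs, h4 i hne]

theorem AFF_lin {k : Type} [Field k] {n : ℕ} (M : Matrix (Fin n) (Fin n) k) (hM : M.det ≠ 0) :
    ∃ τ ∈ Tm k (Fin n), ∀ i, τ (X i) = ∑ j, C (M i j) * X j := by
  classical
  apply Matrix.diagonal_transvection_induction_of_det_ne_zero
    (fun M => ∃ τ ∈ Tm k (Fin n), ∀ i, τ (X i) = ∑ j, C (M i j) * X j) M hM
  · intro D hD
    rw [Matrix.det_diagonal] at hD
    have hD' : ∀ i, D i ≠ 0 := fun i h => hD (Finset.prod_eq_zero (Finset.mem_univ i) h)
    obtain ⟨τ, hτ, h1, _⟩ := AFF_diag D hD' Finset.univ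
    refine ⟨τ, hτ, fun i => ?_⟩
    rw [h1 i (Finset.mem_univ i), Finset.sum_eq_single i]
    · rw [Matrix.diagonal_apply_eq]
    · intro j _ hj
      rw [Matrix.diagonal_apply_ne _ (Ne.symm hj), C_0, zero_mul]
    · intro h; exact absurd (Finset.mem_univ i) h
  · rintro ⟨i, j, hij, c⟩
    have hv : i ∉ (C c * X j : MvPolynomial (Fin n) k).vars := by
      intro h
      have h1 := MvPolynomial.vars_mul _ _ h
      rw [vars_C, Finset.empty_union, vars_X, Finset.mem_singleton] at h1
      exact hij h1
    obtain ⟨ε, hε, h3, h4⟩ := AFF_el i (C c * X j : MvPolynomial (Fin n) k) hv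
    refine ⟨ε, hε, fun l => ?_⟩
    have hsum : ∑ x, C ((Matrix.TransvectionStruct.toMatrix ⟨i, j, hij, c⟩ :
        Matrix (Fin n) (Fin n) k) l x) * (X x : MvPolynomial (Fin n) k) =
        (∑ x, (if l = x then X x else 0)) + ∑ x, (if i = l ∧ j = x then C c * X x else 0) := by
      rw [← Finset.sum_add_distrib]
      apply Finset.sum_congr rfl
      intro x _
      rw [Matrix.TransvectionStruct.toMatrix_mk, Matrix.transvection, Matrix.add_apply, map_add,
        add_mul, Matrix.one_apply, Matrix.single_apply]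
      congr 1
      · split_ifs <;> simp
      · split_ifs <;> simp
    rw [hsum, Finset.sum_ite_eq, if_pos (Finset.mem_univ l)]
    by_cases hl : l = i
    · subst hl
      rw [h3]
      congr 1
      simp
    · rw [h4 l hl]
      have : ∀ x, ¬ (i = l ∧ j = x) := fun x h => hl h.1.symm
      simp [this]
  · rintro A B _ _ ⟨τA, hA, hA1⟩ ⟨τB, hB, hB1⟩
    refine ⟨τB * τA, Subgroup.mul_mem _ hB hA, fun i => ?_⟩
    rw [AlgEquiv.mul_apply, hA1, map_sum]
    have h1 : ∀ j, τB (C (A i j) * X j) = ∑ l, C (A i j * B j l) * X l := by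
      intro j
      rw [map_mul, AFF_fixC, hB1, Finset.mul_sum]
      apply Finset.sum_congr rfl
      intro l _
      rw [C_mul, mul_assoc]
    simp only [h1]
    rw [Finset.sum_comm]
    apply Finset.sum_congr rfl
    intro l _
    rw [← Finset.sum_mul, Matrix.mul_apply, map_sum]

theorem AFF_deg {k : Type} [Field k] {n : ℕ} (f : MvPolynomial (Fin n) k)
    (hf : f.totalDegree ≤ 1) :
    f = C (coeff 0 f) + ∑ j, C (coeff (Finsupp.single j 1) f) * X j := by
  classical
  ext m
  rw [coeff_add, coeff_C, coeff_sum]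
  have h1 : ∀ j, coeff m (C (coeff (Finsupp.single j 1) f) * X j : MvPolynomial (Fin n) k) =
      if Finsupp.single j 1 = m then coeff m f else 0 := by
    intro j
    rw [coeff_C_mul, coeff_X]
    split_ifs with h
    · rw [← h, mul_one]
    · rw [mul_zero]
  simp only [h1]
  rcases Nat.lt_or_ge 1 m.degree with h | h
  · rw [coeff_eq_zero_of_totalDegree_lt (by
      refine lt_of_le_of_lt hf ?_
      rw [Finsupp.degree_apply] at h
      exact h)]
    have h0 : (0 : Fin n →₀ ℕ) ≠ m := by
      rintro rfl
      simp at h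
    simp [h0]
  · rcases Nat.le_one_iff_eq_zero_or_eq_one.1 h with h2 | h2
    · have h3 : m = 0 := (Finsupp.degree_eq_zero_iff m).1 h2
      subst h3
      simp
    · have h3 : m ∈ Set.range (fun a : Fin n => Finsupp.single a 1) := by
        rw [Finsupp.range_single_one]
        exact h2
      obtain ⟨i, hi⟩ := h3
      subst hi
      have h0 : (0 : Fin n →₀ ℕ) ≠ Finsupp.single i 1 := by
        intro h
        have := congrArg (fun g => g i) h
        simp at this
      rw [if_neg h0, zero_add, Finset.sum_eq_single i]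
      · rw [if_pos rfl]
      · intro j _ hj
        rw [if_neg]
        intro h
        have := congrArg (fun g => g j) h
        simp [Finsupp.single_apply, hj.symm] at this
      · intro h; exact absurd (Finset.mem_univ i) h

/-- AFF: automorphisms of degree at most one are products of elementary ones and scalings -/
theorem p_AFF : S_AFF := by
  classical
  intro k _ n σ hσ
  let b : Fin n → k := fun i => coeff 0 (σ (X i))
  let a : Matrix (Fin n) (Fin n) k := fun i j => coeff (Finsupp.single j 1) (σ (X i))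
  have hσ1 : ∀ i, σ (X i) = C (b i) + ∑ j, C (a i j) * X j := fun i => AFF_deg _ (hσ i)
  have hdet : a.det ≠ 0 := by
    intro h0
    obtain ⟨v, hv, hva⟩ := Matrix.exists_vecMul_eq_zero_iff.2 h0
    have h1 : σ (∑ i, C (v i) * X i) = σ (C (∑ i, v i * b i)) := by
      rw [map_sum, AFF_fixC]
      have h2 : ∀ i, σ (C (v i) * X i) = C (v i * b i) + ∑ j, C (v i * a i j) * X j := by
        intro i
        rw [map_mul, AFF_fixC, hσ1, mul_add, ← C_mul, Finset.mul_sum]
        congr 1
        apply Finset.sum_congr rfl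
        intro j _
        rw [C_mul, mul_assoc]
      simp only [h2]
      rw [Finset.sum_add_distrib, ← map_sum, Finset.sum_comm]
      have h3 : ∀ j, ∑ i, C (v i * a i j) * (X j : MvPolynomial (Fin n) k) = 0 := by
        intro j
        rw [← Finset.sum_mul, ← map_sum]
        have h4 : ∑ i, v i * a i j = 0 := by
          have := congrFun hva j
          rw [Matrix.vecMul, dotProduct] at this
          exact this
        rw [h4, C_0, zero_mul]
      simp only [h3]
      rw [Finset.sum_const_zero, add_zero]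
    have h2 := σ.injective h1
    apply hv
    funext l
    have h3 := congrArg (coeff (Finsupp.single l 1)) h2
    rw [coeff_sum, coeff_C] at h3
    have h0 : (0 : Fin n →₀ ℕ) ≠ Finsupp.single l 1 := by
      intro h
      have := congrArg (fun g => g l) h
      simp at this
    rw [if_neg h0, Finset.sum_eq_single l] at h3
    · rw [coeff_C_mul, coeff_X, if_pos rfl, mul_one] at h3
      exact h3
    · intro j _ hj
      rw [coeff_C_mul, coeff_X, if_neg, mul_zero]
      intro h
      have := congrArg (fun g => g j) h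
      simp [Finsupp.single_apply, hj.symm] at this
    · intro h; exact absurd (Finset.mem_univ l) h
  obtain ⟨τa, hτa, ha⟩ := AFF_lin a hdet
  obtain ⟨τb, hτb, hb, _⟩ := AFF_trans b Finset.univ
  have : σ = τa * τb := by
    apply AFF_ext
    intro i
    rw [AlgEquiv.mul_apply, hb i (Finset.mem_univ i), map_add, ha, AFF_fixC, hσ1, add_comm]
  rw [this]
  exact Subgroup.mul_mem _ hτa hτb

end Pool.GR
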