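import Pool.Agent.Work.MP_91aed7_gr.Interface

/-!
# Block CMP: if the lift is stably tame then so is the automorphism
-/

set_option autoImplicit false

namespace Pool.GR

noncomputable section

open MvPolynomial Pool.AM

/-- the renaming of the variables -/
def CMP_rho (n : ℕ) : Vr (n + n) → Vr n :=
  Sum.elim (Fin.addCases (fun i => Sum.inl i) (fun i => Sum.inr (i : ℕ))) (fun j => Sum.inr (n + j))

theorem CMP_rho_l (n : ℕ) (i : Fin n) : CMP_rho n (Sum.inl (Fin.castAdd n i)) = Sum.inl i := by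
  simp only [CMP_rho, Sum.elim_inl, Fin.addCases_left]

theorem CMP_rho_r (n : ℕ) (i : Fin n) :
    CMP_rho n (Sum.inl (Fin.natAdd n i)) = Sum.inr (i : ℕ) := by
  simp only [CMP_rho, Sum.elim_inl, Fin.addCases_right]

theorem CMP_rho_inr (n : ℕ) (j : ℕ) : CMP_rho n (Sum.inr j) = Sum.inr (n + j) := rfl

theorem CMP_inj (n : ℕ) : Function.Injective (CMP_rho n) := by
  rintro (a | a) (b | b) h
  · induction a using Fin.addCases with
    | left a =>
      induction b using Fin.addCases with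
      | left b =>
        rw [CMP_rho_l, CMP_rho_l] at h
        rw [Sum.inl.inj h]
      | right b =>
        rw [CMP_rho_l, CMP_rho_r] at h
        cases h
    | right a =>
      induction b using Fin.addCases with
      | left b =>
        rw [CMP_rho_l, CMP_rho_r] at h
        cases h
      | right b =>
        rw [CMP_rho_r, CMP_rho_r] at h
        rw [Fin.ext (Sum.inr.inj h)]
  · induction a using Fin.addCases with
    | left a =>
      rw [CMP_rho_l, CMP_rho_inr] at h
      cases h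
    | right a =>
      rw [CMP_rho_r, CMP_rho_inr] at h
      have h1 := Sum.inr.inj h
      have h2 := a.isLt
      omega
  · induction b using Fin.addCases with
    | left b =>
      rw [CMP_rho_l, CMP_rho_inr] at h
      cases h
    | right b =>
      rw [CMP_rho_r, CMP_rho_inr] at h
      have h1 := Sum.inr.inj h
      have h2 := b.isLt
      omega
  · rw [CMP_rho_inr, CMP_rho_inr] at h
    have h1 := Sum.inr.inj h
    rw [show a = b by omega]

theorem CMP_det (hJAC : Stmt_JAC) {k : Type} [Field k] {n : ℕ} (φ : Au k n) :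
    ∃ c : k, c ≠ 0 ∧ (Matrix.of fun i j : Fin n => pderiv i (φ (X j))).det = C c := by
  classical
  obtain ⟨c, hc, hdet⟩ := hJAC k (Fin n) Finset.univ φ (fun v _ => by
    rw [Finset.coe_univ, supported_univ]
    exact Algebra.mem_top)
  refine ⟨c, hc, ?_⟩
  rw [← hdet]
  let e : (Finset.univ : Finset (Fin n)) ≃ Fin n :=
    (Equiv.subtypeUnivEquiv (fun x => Finset.mem_univ x))
  rw [← Matrix.det_transpose, ← Matrix.det_submatrix_equiv_self e]
  rfl

theorem p_CMP (hMAT : S_MAT) (hINFI : S_INFI) (hINFD : S_INFD) (hEXTI : S_EXTI)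
    (hEXT : Stmt_EXT) (hJAC : Stmt_JAC) : S_CMP := by
  classical
  intro k _ n φ ψ hl hψ
  obtain ⟨Φ, hΦ, -, -⟩ := hEXT k n φ
  obtain ⟨Ψ, hΨ, -, -⟩ := hEXT k (n + n) ψ
  have hΨT := hINFI k (n + n) ψ hψ Ψ hΨ
  obtain ⟨T, hT, hTρ, -⟩ := hEXTI k _ _ (CMP_rho n) (CMP_inj n) Ψ hΨT
  obtain ⟨c, hc, hdet⟩ := CMP_det hJAC φ
  obtain ⟨μ, hμ, hμ1, hμ2, hμ3⟩ := hMAT k n _ c hc hdet
  -- the values of `T`
  have hT1 : ∀ i : Fin n, T (X (Sum.inl i)) = rename Sum.inl (φ (X i)) := by
    intro i
    have h1 := hTρ (Sum.inl (Fin.castAdd n i))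
    rw [CMP_rho_l, hΨ.1, (hl i).1, rename_rename, rename_rename] at h1
    rw [h1]
    congr 2
    funext x
    exact CMP_rho_l n x
  have hT2 : ∀ a : Fin n, T (X (Sum.inr (a : ℕ))) =
      ∑ b : Fin n, rename Sum.inl (pderiv a (φ (X b))) * X (Sum.inr (b : ℕ)) := by
    intro a
    have h1 := hTρ (Sum.inl (Fin.natAdd n a))
    rw [CMP_rho_r, hΨ.1, (hl a).2, map_sum, map_sum] at h1
    rw [h1]
    refine Finset.sum_congr rfl fun b _ => ?_
    rw [map_mul, map_mul, rename_rename, rename_rename, rename_X, rename_X, CMP_rho_r]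
    congr 3
    funext x
    exact CMP_rho_l n x
  have hT3 : ∀ j : ℕ, n ≤ j → T (X (Sum.inr j)) = X (Sum.inr j) := by
    intro j hj
    obtain ⟨j', rfl⟩ := Nat.exists_eq_add_of_le hj
    have h1 := hTρ (Sum.inr j')
    rw [CMP_rho_inr, hΨ.2, rename_X, CMP_rho_inr] at h1
    exact h1
  -- `μ` fixes the polynomials in the `x_i`
  have hfix : ∀ f : MvPolynomial (Fin n) k, μ (rename Sum.inl f) = rename Sum.inl f := by
    intro f
    have h1 : (μ : PS k n →ₐ[k] PS k n).comp (rename Sum.inl) = rename Sum.inl := by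
      apply MvPolynomial.algHom_ext
      intro i
      rw [AlgHom.comp_apply, rename_X]
      exact hμ1 i
    exact congrArg (fun F : MvPolynomial (Fin n) k →ₐ[k] PS k n => F f) h1
  have hTμ : T = μ * Φ := by
    apply AlgEquiv.ext
    intro f
    have h1 : (T : PS k n →ₐ[k] PS k n) = ((μ * Φ : PS k n ≃ₐ[k] PS k n) : PS k n →ₐ[k] PS k n) := by
      apply MvPolynomial.algHom_ext
      rintro (i | j)
      · show T (X (Sum.inl i)) = μ (Φ (X (Sum.inl i)))
        rw [hT1, hΦ.1, hfix]
      · show T (X (Sum.inr j)) = μ (Φ (X (Sum.inr j)))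
        rw [hΦ.2]
        by_cases hj : n ≤ j
        · rw [hT3 j hj, hμ3 j hj]
        · push Not at hj
          have h2 := hT2 ⟨j, hj⟩
          have h3 := hμ2 ⟨j, hj⟩
          rw [show ((⟨j, hj⟩ : Fin n) : ℕ) = j from rfl] at h2 h3
          rw [h2, h3]
          rfl
    exact congrArg (fun F : PS k n →ₐ[k] PS k n => F f) h1
  have hΦT : Φ ∈ Tm k (Vr n) := by
    have h1 : Φ = μ⁻¹ * T := by rw [hTμ, inv_mul_cancel_left]
    rw [h1]
    exact (Tm k (Vr n)).mul_mem ((Tm k (Vr n)).inv_mem hμ) hT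
  exact hINFD k n φ Φ hΦ hΦT

end

end Pool.GR
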