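import Pool.Agent.Work.MP_91aed7_gr.Interface
import Pool.Agent.Work.MP_91aed7_am_helper29.DSC

set_option autoImplicit false

/-! # Extension of tame automorphisms along an injection of the variables (block EXTI) -/

namespace Pool.GR

noncomputable section

open MvPolynomial Pool.AM

theorem EXTI_rename {k : Type} [Field k] {σ κ : Type} (e : σ → κ)
    (τ : MvPolynomial σ k ≃ₐ[k] MvPolynomial σ k) (T : MvPolynomial κ k ≃ₐ[k] MvPolynomial κ k)
    (h : ∀ a : σ, T (X (e a)) = rename e (τ (X a))) (p : MvPolynomial σ k) :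
    T (rename e p) = rename e (τ p) := by
  have h1 : (T : MvPolynomial κ k →ₐ[k] MvPolynomial κ k).comp (rename e)
      = (rename e).comp (τ : MvPolynomial σ k →ₐ[k] MvPolynomial σ k) := by
    apply MvPolynomial.algHom_ext
    intro a
    rw [AlgHom.comp_apply, AlgHom.comp_apply, rename_X]
    exact h a
  exact DFunLike.congr_fun h1 p

theorem EXTI_inv_app {k : Type} [Field k] {σ : Type}
    (τ : MvPolynomial σ k ≃ₐ[k] MvPolynomial σ k) (p : MvPolynomial σ k) : τ (τ⁻¹ p) = p := by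
  rw [← AlgEquiv.mul_apply, mul_inv_cancel, AlgEquiv.one_apply]

theorem EXTI_inv_app' {k : Type} [Field k] {σ : Type}
    (τ : MvPolynomial σ k ≃ₐ[k] MvPolynomial σ k) (p : MvPolynomial σ k) : τ⁻¹ (τ p) = p := by
  rw [← AlgEquiv.mul_apply, inv_mul_cancel, AlgEquiv.one_apply]

theorem p_EXTI : S_EXTI := by
  classical
  intro k _ σ κ e he τ hτ
  induction hτ using Subgroup.closure_induction with
  | mem τ h =>
    rcases h with ⟨i, f, hif, h1, h2⟩ | ⟨i, c, hc, h1, h2⟩
    · have hvar : e i ∉ (rename e f).vars := by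
        intro h
        have h3 := MvPolynomial.vars_rename e f h
        obtain ⟨a, ha, hae⟩ := Finset.mem_image.1 h3
        exact hif (he hae ▸ ha)
      obtain ⟨T, t1, t2⟩ := DSC_.exists_el (e i) (rename e f) hvar
      refine ⟨T, Subgroup.subset_closure (Or.inl ⟨e i, rename e f, hvar, t1, t2⟩), ?_, ?_⟩
      · intro a
        by_cases ha : a = i
        · rw [ha, t1, h1, map_add, rename_X]
        · rw [t2 (e a) (fun h => ha (he h)), h2 a ha, rename_X]
      · intro v hv
        exact t2 v (fun h => hv ⟨i, h.symm⟩)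
    · obtain ⟨T, t1, t2⟩ := DSC_.exists_sc (e i) c hc
      refine ⟨T, Subgroup.subset_closure (Or.inr ⟨e i, c, hc, t1, t2⟩), ?_, ?_⟩
      · intro a
        by_cases ha : a = i
        · rw [ha, t1, h1, map_mul, rename_X, rename_C]
        · rw [t2 (e a) (fun h => ha (he h)), h2 a ha, rename_X]
      · intro v hv
        exact t2 v (fun h => hv ⟨i, h.symm⟩)
  | one =>
    refine ⟨1, Subgroup.one_mem _, fun a => ?_, fun v _ => rfl⟩
    rw [AlgEquiv.one_apply, AlgEquiv.one_apply, rename_X]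
  | mul τ₁ τ₂ _ _ ih1 ih2 =>
    obtain ⟨T₁, m1, a1, b1⟩ := ih1
    obtain ⟨T₂, m2, a2, b2⟩ := ih2
    refine ⟨T₁ * T₂, Subgroup.mul_mem _ m1 m2, fun a => ?_, fun v hv => ?_⟩
    · rw [AlgEquiv.mul_apply, AlgEquiv.mul_apply, a2, EXTI_rename e τ₁ T₁ a1]
    · rw [AlgEquiv.mul_apply, b2 v hv, b1 v hv]
  | inv τ _ ih =>
    obtain ⟨T, m, a1, b1⟩ := ih
    refine ⟨T⁻¹, Subgroup.inv_mem _ m, fun a => ?_, fun v hv => ?_⟩
    · have h3 : T (rename e (τ⁻¹ (X a))) = X (e a) := by
        rw [EXTI_rename e τ T a1, EXTI_inv_app, rename_X]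
      rw [← h3, EXTI_inv_app']
    · have h3 : T⁻¹ (T (X v)) = T⁻¹ (X v) := by rw [b1 v hv]
      rw [EXTI_inv_app'] at h3
      exact h3.symm

end

end Pool.GR
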