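import Pool.Agent.Work.MP_91aed7_gr.Interface

/-! # Block GRAD (helper45) -/

set_option autoImplicit false

namespace Pool.GR

noncomputable section

open MvPolynomial Pool.AM

theorem GRAD_aux0 {k : Type} [Field k] {n : ℕ} (i : Fin n) (p : MvPolynomial (Fin n) k) :
    pderiv (Fin.natAdd n i) (rename (Fin.castAdd n) p) = 0 := by
  classical
  apply pderiv_eq_zero_of_notMem_vars
  intro h
  have h2 := vars_rename (Fin.castAdd n) p h
  rw [Finset.mem_image] at h2
  obtain ⟨a, -, ha⟩ := h2
  have h3 := congrArg Fin.val ha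
  have h4 : (a : ℕ) < n := a.2
  simp only [Fin.val_castAdd, Fin.val_natAdd] at h3
  omega

theorem GRAD_aux1 {k : Type} [Field k] {n : ℕ} (i : Fin n) (p : MvPolynomial (Fin n) k) :
    pderiv (Fin.castAdd n i) (rename (Fin.castAdd n) p) = rename (Fin.castAdd n) (pderiv i p) :=
  pderiv_rename (Fin.castAdd_injective n n) i p

theorem GRAD_ne {n : ℕ} (i j : Fin n) : Fin.natAdd n j ≠ Fin.castAdd n i := by
  intro h
  have h3 := congrArg Fin.val h
  have h4 : (i : ℕ) < n := i.2
  simp only [Fin.val_castAdd, Fin.val_natAdd] at h3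
  omega

theorem p_GRAD : S_GRAD := by
  classical
  intro k _ n d φ ψ hL hd
  refine ⟨∑ j : Fin n, rename (Fin.castAdd n) (φ (X j)) * X (Fin.natAdd n j), ?_, ?_⟩
  · refine totalDegree_finsetSum_le fun j _ => ?_
    refine (totalDegree_mul _ _).trans ?_
    refine Nat.add_le_add ((totalDegree_rename_le _ _).trans (hd j)) ?_
    rw [totalDegree_X]
  · intro i
    obtain ⟨h1, h2⟩ := hL i
    constructor
    · rw [h1, map_sum, Finset.sum_eq_single i]
      · rw [pderiv_mul, GRAD_aux0, pderiv_X_self, zero_mul, zero_add, mul_one]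
      · intro j _ hj
        rw [pderiv_mul, GRAD_aux0, pderiv_X_of_ne, zero_mul, zero_add, mul_zero]
        intro h
        exact hj (Fin.natAdd_injective n n h)
      · intro h
        exact absurd (Finset.mem_univ i) h
    · rw [h2, map_sum]
      refine Finset.sum_congr rfl fun j _ => ?_
      rw [pderiv_mul, GRAD_aux1, pderiv_X_of_ne (GRAD_ne i j), mul_zero, add_zero]

end

end Pool.GR
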