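import Pool.Agent.Work.MP_91aed7_gr.Interface

set_option autoImplicit false

namespace Pool.GR

noncomputable section

open MvPolynomial Pool.AM

theorem INFD_emb_left (n L : ℕ) (i : Fin n) : emb n L (Fin.castAdd L i) = Sum.inl i := by
  unfold emb
  rw [Fin.addCases_left]

theorem INFD_emb_right (n L : ℕ) (j : Fin L) : emb n L (Fin.natAdd n j) = Sum.inr (j : ℕ) := by
  unfold emb
  rw [Fin.addCases_right]

theorem INFD_emb_inj (n L : ℕ) : Function.Injective (emb n L) := by
  intro a b
  refine Fin.addCases (fun i => ?_) (fun i => ?_) a <;>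
    refine Fin.addCases (fun j => ?_) (fun j => ?_) b
  · rw [INFD_emb_left, INFD_emb_left]
    intro h
    rw [Sum.inl.inj h]
  · rw [INFD_emb_left, INFD_emb_right]
    intro h
    cases h
  · rw [INFD_emb_left, INFD_emb_right]
    intro h
    cases h
  · rw [INFD_emb_right, INFD_emb_right]
    intro h
    rw [Fin.ext (Sum.inr.inj h)]

theorem p_INFD (hDSC : Pool.AM.Stmt_DSC) : S_INFD := by
  intro k _ n φ Φ hΦ hT
  obtain ⟨L₀, h⟩ := hDSC k n Φ hT
  obtain ⟨τ, hτ, hτe⟩ := h (max L₀ 1) (le_max_left _ _)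
  have hinj := MvPolynomial.rename_injective (R := k) (emb n (max L₀ 1)) (INFD_emb_inj n _)
  refine ⟨max L₀ 1, lt_of_lt_of_le Nat.zero_lt_one (le_max_right _ _), τ, hτ, ?_, ?_⟩
  · intro i
    apply hinj
    rw [hτe, INFD_emb_left, hΦ.1, rename_rename]
    congr 1
    apply congrArg
    funext j
    rw [Function.comp_apply, INFD_emb_left]
  · intro j
    apply hinj
    rw [hτe, INFD_emb_right, hΦ.2, rename_X, INFD_emb_right]

end

end Pool.GR
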