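import Pool.Agent.Work.MP_91aed7_gr.Interface

set_option autoImplicit false

namespace Pool.GR

open MvPolynomial Pool.AM

theorem INFI_left (n l : ℕ) (i : Fin n) : emb n l (Fin.castAdd l i) = Sum.inl i := by
  unfold emb
  rw [Fin.addCases_left]

theorem INFI_right (n l : ℕ) (j : Fin l) : emb n l (Fin.natAdd n j) = Sum.inr (j : ℕ) := by
  unfold emb
  rw [Fin.addCases_right]

theorem INFI_inj (n l : ℕ) : Function.Injective (emb n l) := by
  intro a b h
  induction a using Fin.addCases with
  | left i =>
    induction b using Fin.addCases with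
    | left j =>
      rw [INFI_left, INFI_left] at h
      rw [Sum.inl.inj h]
    | right j =>
      rw [INFI_left, INFI_right] at h
      exact absurd h (by simp)
  | right i =>
    induction b using Fin.addCases with
    | left j =>
      rw [INFI_left, INFI_right] at h
      exact absurd h (by simp)
    | right j =>
      rw [INFI_right, INFI_right] at h
      rw [Fin.ext (Sum.inr.inj h)]

theorem p_INFI (hAFF : S_AFF) (hEXTI : S_EXTI) : S_INFI := by
  intro k _ n φ hφ Φ hΦ
  obtain ⟨l, -, τ, hτ, h1, h2⟩ := hφ
  have hle : Tame k (n + l) ≤ Tm k (Fin (n + l)) := by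
    unfold Tame
    rw [Subgroup.closure_le]
    rintro σ (hσ | ⟨i, f, hi, hf, hj⟩)
    · exact hAFF k (n + l) σ hσ
    · exact Subgroup.subset_closure (Or.inl ⟨i, f, hi, hf, hj⟩)
  obtain ⟨T, hT, hT1, hT2⟩ := hEXTI k _ _ (emb n l) (INFI_inj n l) τ (hle hτ)
  have key : ∀ v : Vr n, T (X v) = Φ (X v) := by
    intro v
    cases v with
    | inl i =>
      have e := hT1 (Fin.castAdd l i)
      rw [INFI_left] at e
      rw [e, h1, rename_rename, hΦ.1]
      congr 2
      funext a
      exact INFI_left n l a
    | inr j =>
      rw [hΦ.2]
      by_cases hj : j < l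
      · have e := hT1 (Fin.natAdd n ⟨j, hj⟩)
        rw [INFI_right] at e
        rw [e, h2, rename_X, INFI_right]
      · refine hT2 _ ?_
        rintro ⟨a, ha⟩
        induction a using Fin.addCases with
        | left i =>
          rw [INFI_left] at ha
          exact absurd ha (by simp)
        | right i =>
          rw [INFI_right] at ha
          have := Sum.inr.inj ha
          have := i.2
          omega
  have e : T = Φ := by
    have h3 : (T : PS k n →ₐ[k] PS k n) = (Φ : PS k n →ₐ[k] PS k n) :=
      MvPolynomial.algHom_ext fun v => key v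
    apply AlgEquiv.ext
    intro p
    exact DFunLike.congr_fun h3 p
  rw [← e]
  exact hT

end Pool.GR
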