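import Pool.Agent.Work.MP_91aed7_gr.Interface

/-! # Block LIFT (helper90) -/

set_option autoImplicit false

namespace Pool.GR

open MvPolynomial Pool.AM

theorem LIFT_chain {k : Type} [Field k] {n : ℕ} (θ : Au k n) (v : Fin n)
    (g : MvPolynomial (Fin n) k) :
    pderiv v (θ g) = ∑ l : Fin n, θ (pderiv l g) * pderiv v (θ (X l)) := by
  have hg : g ∈ Algebra.adjoin k (Set.range (X : Fin n → MvPolynomial (Fin n) k)) := by
    rw [MvPolynomial.adjoin_range_X]; trivial
  induction hg using Algebra.adjoin_induction with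
  | mem x hx =>
    obtain ⟨w, rfl⟩ := hx
    rw [Finset.sum_eq_single_of_mem w (Finset.mem_univ _)]
    · rw [pderiv_X_self, map_one, one_mul]
    · intro l _ hlw
      rw [pderiv_X_of_ne (Ne.symm hlw), map_zero, zero_mul]
  | algebraMap r =>
    rw [AlgEquiv.commutes]
    rw [MvPolynomial.algebraMap_eq, pderiv_C]
    symm
    apply Finset.sum_eq_zero
    intro l _
    rw [pderiv_C, map_zero, zero_mul]
  | add x y _ _ hx hy =>
    rw [map_add, map_add, hx, hy, ← Finset.sum_add_distrib]
    apply Finset.sum_congr rfl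
    intro l _
    rw [map_add, map_add, add_mul]
  | mul x y _ _ hx hy =>
    rw [map_mul, pderiv_mul, hx, hy, Finset.sum_mul, Finset.mul_sum, ← Finset.sum_add_distrib]
    apply Finset.sum_congr rfl
    intro l _
    rw [pderiv_mul, map_add, map_mul, map_mul]
    ring

/-- the lift as a ring homomorphism -/
noncomputable def LIFT_L {k : Type} [Field k] {n : ℕ} (φ : Au k n) :
    MvPolynomial (Fin (n + n)) k →ₐ[k] MvPolynomial (Fin (n + n)) k :=
  aeval (Fin.addCases (motive := fun _ => MvPolynomial (Fin (n + n)) k)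
    (fun i => rename (Fin.castAdd n) (φ (X i)))
    (fun i => ∑ j : Fin n, rename (Fin.castAdd n) (pderiv i (φ (X j))) * X (Fin.natAdd n j)))

theorem LIFT_x {k : Type} [Field k] {n : ℕ} (φ : Au k n) (i : Fin n) :
    LIFT_L φ (X (Fin.castAdd n i)) = rename (Fin.castAdd n) (φ (X i)) := by
  unfold LIFT_L
  rw [aeval_X, Fin.addCases_left]

theorem LIFT_y {k : Type} [Field k] {n : ℕ} (φ : Au k n) (i : Fin n) :
    LIFT_L φ (X (Fin.natAdd n i)) =
      ∑ j : Fin n, rename (Fin.castAdd n) (pderiv i (φ (X j))) * X (Fin.natAdd n j) := by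
  unfold LIFT_L
  rw [aeval_X, Fin.addCases_right]

theorem LIFT_ren {k : Type} [Field k] {n : ℕ} (φ : Au k n) (p : MvPolynomial (Fin n) k) :
    LIFT_L φ (rename (Fin.castAdd n) p) = rename (Fin.castAdd n) (φ p) := by
  have h : (LIFT_L φ).comp (rename (Fin.castAdd n)) =
      (rename (Fin.castAdd n)).comp (φ : MvPolynomial (Fin n) k →ₐ[k] MvPolynomial (Fin n) k) := by
    apply algHom_ext
    intro i
    rw [AlgHom.comp_apply, rename_X, LIFT_x]
    rfl
  exact DFunLike.congr_fun h p

open Classical in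
theorem LIFT_mat {k : Type} [Field k] {n : ℕ} (φ : Au k n) (l i : Fin n) :
    ∑ j : Fin n, pderiv j (φ (X l)) * φ (pderiv i (φ.symm (X j))) = if l = i then 1 else 0 := by
  set M : Matrix (Fin n) (Fin n) (MvPolynomial (Fin n) k) :=
    Matrix.of fun l i => φ (pderiv i (φ.symm (X l))) with hM
  set N : Matrix (Fin n) (Fin n) (MvPolynomial (Fin n) k) :=
    Matrix.of fun i j => pderiv j (φ (X i)) with hN
  have h1 : M * N = 1 := by
    ext l j : 2
    rw [Matrix.mul_apply, Matrix.one_apply]
    have := LIFT_chain φ j (φ.symm (X l))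
    rw [AlgEquiv.apply_symm_apply] at this
    simp only [hM, hN, Matrix.of_apply]
    rw [← this]
    by_cases h : l = j
    · rw [if_pos h, h, pderiv_X_self]
    · rw [if_neg h, pderiv_X_of_ne h]
  have h2 : N * M = 1 := mul_eq_one_comm.1 h1
  have h3 := congrFun (congrFun h2 l) i
  rw [Matrix.mul_apply, Matrix.one_apply] at h3
  exact h3

theorem LIFT_comp {k : Type} [Field k] {n : ℕ} (φ : Au k n) :
    (LIFT_L φ).comp (LIFT_L φ.symm) = AlgHom.id k (MvPolynomial (Fin (n + n)) k) := by
  classical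
  apply algHom_ext
  intro a
  rw [AlgHom.comp_apply, AlgHom.id_apply]
  refine Fin.addCases (fun i => ?_) (fun i => ?_) a
  · rw [LIFT_x, LIFT_ren, AlgEquiv.apply_symm_apply, rename_X]
  · rw [LIFT_y, map_sum]
    have h1 : ∀ j : Fin n, LIFT_L φ (rename (Fin.castAdd n) (pderiv i (φ.symm (X j))) *
        X (Fin.natAdd n j)) = ∑ l : Fin n, rename (Fin.castAdd n)
          (pderiv j (φ (X l)) * φ (pderiv i (φ.symm (X j)))) * X (Fin.natAdd n l) := by
      intro j
      rw [map_mul, LIFT_ren, LIFT_y, Finset.mul_sum]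
      refine Finset.sum_congr rfl fun l _ => ?_
      rw [map_mul]
      ring
    rw [Finset.sum_congr rfl fun j _ => h1 j, Finset.sum_comm]
    have h2 : ∀ l : Fin n, ∑ j : Fin n, rename (Fin.castAdd n)
          (pderiv j (φ (X l)) * φ (pderiv i (φ.symm (X j)))) * X (Fin.natAdd n l) =
        if l = i then (X (Fin.natAdd n l) : MvPolynomial (Fin (n + n)) k) else 0 := by
      intro l
      rw [← Finset.sum_mul, ← map_sum, LIFT_mat]
      by_cases h : l = i
      · rw [if_pos h, if_pos h, map_one, one_mul]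
      · rw [if_neg h, if_neg h, map_zero, zero_mul]
    rw [Finset.sum_congr rfl fun l _ => h2 l, Finset.sum_ite_eq' Finset.univ i,
      if_pos (Finset.mem_univ _)]

theorem p_LIFT : S_LIFT := by
  intro k _ n φ
  have h2 : (LIFT_L φ.symm).comp (LIFT_L φ) = AlgHom.id k (MvPolynomial (Fin (n + n)) k) := by
    have := LIFT_comp φ.symm
    rwa [AlgEquiv.symm_symm] at this
  refine ⟨AlgEquiv.ofAlgHom (LIFT_L φ) (LIFT_L φ.symm) (LIFT_comp φ) h2, fun i => ⟨?_, ?_⟩⟩
  · exact LIFT_x φ i
  · exact LIFT_y φ i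

end Pool.GR
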