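import Pool.Agent.Work.MP_91aed7_gr.Interface

/-!
# Block MAT (MP_91aed7_ag): matrices over `k[x]` with constant determinant act tamely
-/

set_option autoImplicit false

open MvPolynomial Pool.AM

namespace Pool.GR

lemma MAT_exists_sc {k : Type} [Field k] {σ : Type} (i : σ) (c : k) (hc : c ≠ 0) :
    ∃ τ ∈ Tm k σ, τ (X i) = C c * X i ∧ (∀ j, j ≠ i → τ (X j) = X j) := by
  classical
  let F : MvPolynomial σ k →ₐ[k] MvPolynomial σ k :=
    aeval fun v => if v = i then C c * X i else X v
  let G : MvPolynomial σ k →ₐ[k] MvPolynomial σ k :=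
    aeval fun v => if v = i then C c⁻¹ * X i else X v
  have hFi : F (X i) = C c * X i := by simp [F]
  have hGi : G (X i) = C c⁻¹ * X i := by simp [G]
  have hFj : ∀ j, j ≠ i → F (X j) = X j := by
    intro j hj
    simp [F, hj]
  have hGj : ∀ j, j ≠ i → G (X j) = X j := by
    intro j hj
    simp [G, hj]
  have hFC : ∀ a : k, F (C a) = C a := fun a => F.commutes a
  have hGC : ∀ a : k, G (C a) = C a := fun a => G.commutes a
  have h1 : F.comp G = AlgHom.id k _ := by
    apply MvPolynomial.algHom_ext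
    intro v
    by_cases hv : v = i
    · subst hv
      simp only [AlgHom.comp_apply, hGi, map_mul, hFi, hFC, AlgHom.id_apply]
      rw [← mul_assoc, ← C_mul, inv_mul_cancel₀ hc, C_1, one_mul]
    · simp only [AlgHom.comp_apply, hGj v hv, hFj v hv, AlgHom.id_apply]
  have h2 : G.comp F = AlgHom.id k _ := by
    apply MvPolynomial.algHom_ext
    intro v
    by_cases hv : v = i
    · subst hv
      simp only [AlgHom.comp_apply, hFi, map_mul, hGi, hGC, AlgHom.id_apply]
      rw [← mul_assoc, ← C_mul, mul_inv_cancel₀ hc, C_1, one_mul]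
    · simp only [AlgHom.comp_apply, hGj v hv, hFj v hv, AlgHom.id_apply]
  exact ⟨AlgEquiv.ofAlgHom F G h1 h2, Subgroup.subset_closure (Or.inr ⟨i, c, hc, hFi, hFj⟩),
    hFi, hFj⟩

theorem p_MAT (hSUS : Stmt_SUS) (hLIN : Stmt_LIN) : S_MAT := by
  intro k _ n JM c hc hdet
  classical
  -- the block matrix
  obtain ⟨M, hM⟩ : ∃ M : Matrix (Fin n ⊕ Unit) (Fin n ⊕ Unit) (MvPolynomial (Fin n) k),
    M = Matrix.fromBlocks JM 0 0 (Matrix.diagonal fun _ => C c⁻¹) := ⟨_, rfl⟩
  have hMdet : M.det = 1 := by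
    rw [hM, Matrix.det_fromBlocks_zero₂₁, Matrix.det_diagonal, hdet]
    simp only [Finset.univ_unique, Finset.prod_const, Finset.card_singleton, pow_one]
    rw [← C_mul, mul_inv_cancel₀ hc, C_1]
  obtain ⟨l, hl⟩ := hSUS k n _ M hMdet
  obtain ⟨e, he⟩ : ∃ e : (Fin n ⊕ Unit) ⊕ Fin l → ℕ,
    e = Sum.elim (Sum.elim (fun i : Fin n => (i : ℕ)) (fun _ : Unit => n))
      (fun j : Fin l => n + 1 + (j : ℕ)) :=
    ⟨_, rfl⟩
  have einj : Function.Injective e := by
    rw [he]
    rintro ((a | a) | a) ((b | b) | b) hab <;>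
      simp only [Sum.elim_inl, Sum.elim_inr] at hab
    · rw [Fin.ext hab]
    · have := a.2; omega
    · have := a.2; omega
    · have := b.2; omega
    · rfl
    · omega
    · have := b.2; omega
    · omega
    · rw [Fin.ext (by omega : (a : ℕ) = b)]
  obtain ⟨μ', hμ', m1, m2, m3, m4⟩ := hLIN k n _ e einj _ hl
  have mu_low : ∀ i : Fin n, μ' (X (Sum.inr (i : ℕ)))
      = ∑ j : Fin n, rename Sum.inl (JM i j) * X (Sum.inr (j : ℕ)) := by
    intro i
    have h := m2 (Sum.inl (Sum.inl i))
    rw [Fintype.sum_sum_type, Fintype.sum_sum_type] at h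
    simpa [he, hM] using h
  have mu_n : μ' (X (Sum.inr n)) = C c⁻¹ * X (Sum.inr n) := by
    have h := m2 (Sum.inl (Sum.inr ()))
    rw [Fintype.sum_sum_type, Fintype.sum_sum_type] at h
    simpa [he, hM] using h
  have mu_hi : ∀ j : ℕ, n < j → μ' (X (Sum.inr j)) = X (Sum.inr j) := by
    intro j hj
    by_cases hjl : j < n + 1 + l
    · have h := m2 (Sum.inr ⟨j - (n + 1), by omega⟩)
      rw [Fintype.sum_sum_type] at h
      have e1 : e (Sum.inr ⟨j - (n + 1), by omega⟩) = j := by
        rw [he]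
        simp only [Sum.elim_inr]
        omega
      rw [e1] at h
      simp only [Matrix.fromBlocks_apply₂₁, Matrix.fromBlocks_apply₂₂, Matrix.zero_apply,
        map_zero, zero_mul, Finset.sum_const_zero, zero_add] at h
      rw [h, Finset.sum_eq_single (⟨j - (n + 1), by omega⟩ : Fin l)]
      · rw [Matrix.one_apply_eq, map_one, one_mul, e1]
      · intro b _ hb
        rw [Matrix.one_apply_ne (Ne.symm hb), map_zero, zero_mul]
      · intro hh
        exact absurd (Finset.mem_univ _) hh
    · refine m3 j ?_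
      rintro ⟨a, ha⟩
      rw [he] at ha
      rcases a with (a | a) | a
      · simp only [Sum.elim_inl] at ha
        have := a.2
        omega
      · simp only [Sum.elim_inl, Sum.elim_inr] at ha
        omega
      · simp only [Sum.elim_inr] at ha
        have := a.2
        omega
  obtain ⟨sc, hsc, s1, s2⟩ := MAT_exists_sc (Sum.inr n : Vr n) c hc
  refine ⟨μ' * sc, mul_mem hμ' hsc, ?_, ?_, ?_⟩
  · intro i
    rw [AlgEquiv.mul_apply, s2 _ (by simp), m1]
  · intro i
    rw [AlgEquiv.mul_apply, s2 _ (by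
      intro h
      have h1 : (i : ℕ) = n := Sum.inr_injective h
      have := i.2
      omega), mu_low]
  · intro j hj
    rw [AlgEquiv.mul_apply]
    rcases hj.eq_or_lt with rfl | hj
    · rw [s1, map_mul, mu_n]
      have : μ' (C c) = C c := μ'.commutes c
      rw [this, ← mul_assoc, ← C_mul, mul_inv_cancel₀ hc, C_1, one_mul]
    · rw [s2 _ (by
        intro h
        have h1 : j = n := Sum.inr_injective h
        omega), mu_hi j hj]

end Pool.GR
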