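import Pool.Agent.Work.MP_91aed7_gr.Interface

set_option autoImplicit false

namespace Pool.GR

noncomputable section

open MvPolynomial Pool.AM

/-- the substitution of `X i + f` for `X i` -/
def ONE2_el {k : Type} [Field k] {n : ℕ} (i : Fin n) (f : MvPolynomial (Fin n) k) :
    MvPolynomial (Fin n) k →ₐ[k] MvPolynomial (Fin n) k :=
  aeval (fun j => if j = i then X i + f else X j)

theorem ONE2_el_self {k : Type} [Field k] {n : ℕ} (i : Fin n) (f : MvPolynomial (Fin n) k) :
    ONE2_el i f (X i) = X i + f := by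
  simp [ONE2_el]

theorem ONE2_el_ne {k : Type} [Field k] {n : ℕ} (i : Fin n) (f : MvPolynomial (Fin n) k)
    (j : Fin n) (h : j ≠ i) : ONE2_el i f (X j) = X j := by
  simp [ONE2_el, h]

theorem ONE2_fix {k : Type} [Field k] {n : ℕ} (i : Fin n)
    (F : MvPolynomial (Fin n) k →ₐ[k] MvPolynomial (Fin n) k)
    (hF : ∀ j, j ≠ i → F (X j) = X j) (f : MvPolynomial (Fin n) k) (hf : i ∉ f.vars) :
    F f = f := by
  have h := hom_congr_vars (f₁ := F.toRingHom) (f₂ := RingHom.id _) (p₁ := f) (p₂ := f)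
    (by
      ext c
      simp [← algebraMap_eq]) (fun j hj _ => by
      have : j ≠ i := fun e => hf (e ▸ hj)
      simpa using hF j this) rfl
  simpa using h

theorem ONE2_comp {k : Type} [Field k] {n : ℕ} (i : Fin n) (f g : MvPolynomial (Fin n) k)
    (hf : i ∉ f.vars) (hfg : f + g = 0) :
    (ONE2_el i g).comp (ONE2_el i f) = AlgHom.id k _ := by
  apply algHom_ext
  intro j
  by_cases h : j = i
  · subst h
    rw [AlgHom.comp_apply, ONE2_el_self, map_add, ONE2_el_self,
      ONE2_fix j _ (fun l hl => ONE2_el_ne j g l hl) f hf]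
    have : g = -f := by rw [eq_neg_iff_add_eq_zero, add_comm, hfg]
    rw [this]
    simp
  · rw [AlgHom.comp_apply, ONE2_el_ne i f j h, ONE2_el_ne i g j h]
    simp

/-- elementary automorphism -/
def ONE2_eq {k : Type} [Field k] {n : ℕ} (i : Fin n) (f : MvPolynomial (Fin n) k)
    (hf : i ∉ f.vars) : Au k n :=
  AlgEquiv.ofAlgHom (ONE2_el i f) (ONE2_el i (-f))
    (ONE2_comp i (-f) f (by rwa [vars_neg]) (by simp))
    (ONE2_comp i f (-f) hf (by simp))

theorem ONE2_eq_self {k : Type} [Field k] {n : ℕ} (i : Fin n) (f : MvPolynomial (Fin n) k)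
    (hf : i ∉ f.vars) : ONE2_eq i f hf (X i) = X i + f := ONE2_el_self i f

theorem ONE2_eq_ne {k : Type} [Field k] {n : ℕ} (i : Fin n) (f : MvPolynomial (Fin n) k)
    (hf : i ∉ f.vars) (j : Fin n) (h : j ≠ i) : ONE2_eq i f hf (X j) = X j :=
  ONE2_el_ne i f j h

theorem ONE2_eq_mem {k : Type} [Field k] {n : ℕ} (i : Fin n) (f : MvPolynomial (Fin n) k)
    (hf : i ∉ f.vars) : ONE2_eq i f hf ∈ Tm k (Fin n) :=
  Subgroup.subset_closure (Or.inl ⟨i, f, hf, ONE2_eq_self i f hf, fun j h => ONE2_eq_ne i f hf j h⟩)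

theorem ONE2_eq_fix {k : Type} [Field k] {n : ℕ} (i : Fin n) (f : MvPolynomial (Fin n) k)
    (hf : i ∉ f.vars) (g : MvPolynomial (Fin n) k) (hg : i ∉ g.vars) :
    ONE2_eq i f hf g = g :=
  ONE2_fix i (ONE2_el i f) (fun j hj => ONE2_el_ne i f j hj) g hg

/-- extension by the identity as a homomorphism -/
def ONE2_ext {k : Type} [Field k] {n : ℕ} (F : MvPolynomial (Fin n) k →ₐ[k] MvPolynomial (Fin n) k) :
    MvPolynomial (Fin (n + 2)) k →ₐ[k] MvPolynomial (Fin (n + 2)) k :=
  aeval (Fin.addCases (fun i => rename (Fin.castAdd 2) (F (X i))) (fun j => X (Fin.natAdd n j)))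

theorem ONE2_ext_l {k : Type} [Field k] {n : ℕ}
    (F : MvPolynomial (Fin n) k →ₐ[k] MvPolynomial (Fin n) k) (i : Fin n) :
    ONE2_ext F (X (Fin.castAdd 2 i)) = rename (Fin.castAdd 2) (F (X i)) := by
  simp [ONE2_ext]

theorem ONE2_ext_r {k : Type} [Field k] {n : ℕ}
    (F : MvPolynomial (Fin n) k →ₐ[k] MvPolynomial (Fin n) k) (j : Fin 2) :
    ONE2_ext F (X (Fin.natAdd n j)) = X (Fin.natAdd n j) := by
  simp [ONE2_ext]

theorem ONE2_ext_rename {k : Type} [Field k] {n : ℕ}
    (F : MvPolynomial (Fin n) k →ₐ[k] MvPolynomial (Fin n) k) (p : MvPolynomial (Fin n) k) :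
    ONE2_ext F (rename (Fin.castAdd 2) p) = rename (Fin.castAdd 2) (F p) := by
  have h : (ONE2_ext F).comp (rename (Fin.castAdd 2)) = (rename (Fin.castAdd 2)).comp F := by
    apply algHom_ext
    intro i
    rw [AlgHom.comp_apply, AlgHom.comp_apply, rename_X, ONE2_ext_l]
  exact DFunLike.congr_fun h p

theorem ONE2_ext_comp {k : Type} [Field k] {n : ℕ}
    (F G : MvPolynomial (Fin n) k →ₐ[k] MvPolynomial (Fin n) k)
    (h : ∀ p, F (G p) = p) : (ONE2_ext F).comp (ONE2_ext G) = AlgHom.id k _ := by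
  apply algHom_ext
  intro i
  refine Fin.addCases (fun i => ?_) (fun j => ?_) i
  · rw [AlgHom.comp_apply, ONE2_ext_l, ONE2_ext_rename, h]
    simp
  · rw [AlgHom.comp_apply, ONE2_ext_r, ONE2_ext_r]
    simp

/-- extension by the identity -/
def ONE2_exte {k : Type} [Field k] {n : ℕ} (φ : Au k n) : Au k (n + 2) :=
  AlgEquiv.ofAlgHom (ONE2_ext φ.toAlgHom) (ONE2_ext φ.symm.toAlgHom)
    (ONE2_ext_comp _ _ (fun p => by simp))
    (ONE2_ext_comp _ _ (fun p => by simp))

theorem ONE2_exte_l {k : Type} [Field k] {n : ℕ} (φ : Au k n) (i : Fin n) :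
    ONE2_exte φ (X (Fin.castAdd 2 i)) = rename (Fin.castAdd 2) (φ (X i)) :=
  ONE2_ext_l φ.toAlgHom i

theorem ONE2_exte_r {k : Type} [Field k] {n : ℕ} (φ : Au k n) (j : Fin 2) :
    ONE2_exte φ (X (Fin.natAdd n j)) = X (Fin.natAdd n j) :=
  ONE2_ext_r φ.toAlgHom j

/-- a part of given degree -/
theorem ONE2_part {n : ℕ} (s : Fin n →₀ ℕ) (m : ℕ) (h : m ≤ s.degree) :
    ∃ p : Fin n →₀ ℕ, p ≤ s ∧ p.degree = m := by
  induction m with
  | zero => exact ⟨0, zero_le, by simp⟩
  | succ m ih =>
    obtain ⟨p, hp, hpm⟩ := ih (by omega)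
    have : ∃ i, p i < s i := by
      by_contra hcon
      push Not at hcon
      have hsp : s ≤ p := fun i => hcon i
      have : p = s := le_antisymm hp hsp
      rw [this] at hpm
      omega
    obtain ⟨i, hi⟩ := this
    refine ⟨p + Finsupp.single i 1, ?_, ?_⟩
    · intro j
      by_cases hj : j = i
      · subst hj
        simp
        omega
      · simp only [Finsupp.add_apply]
        rw [Finsupp.single_eq_of_ne hj]
        simpa using hp j
    · rw [map_add, Finsupp.degree_single, hpm]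

/-- number of monomials of degree `d` -/
def ONE2_T {k : Type} [Field k] {n : ℕ} (p : MvPolynomial (Fin n) k) (d : ℕ) : ℕ :=
  (p.support.filter (fun s => s.degree = d)).card

theorem ONE2_T_zero {k : Type} [Field k] {n : ℕ} (p : MvPolynomial (Fin n) k) (d : ℕ)
    (h : p.totalDegree < d) : ONE2_T p d = 0 := by
  unfold ONE2_T
  rw [Finset.card_eq_zero, Finset.filter_eq_empty_iff]
  intro s hs hd
  have := le_totalDegree hs
  have h2 : (s.sum fun _ e => e) = s.degree := rfl
  omega

theorem ONE2_T_add {k : Type} [Field k] {n : ℕ} (p r : MvPolynomial (Fin n) k) (d : ℕ)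
    (h : r.totalDegree < d) : ONE2_T (p + r) d ≤ ONE2_T p d := by
  unfold ONE2_T
  apply Finset.card_le_card
  intro s hs
  rw [Finset.mem_filter] at hs ⊢
  refine ⟨?_, hs.2⟩
  rw [mem_support_iff]
  intro h0
  have h1 := hs.1
  rw [mem_support_iff, coeff_add, h0, zero_add] at h1
  have := le_totalDegree (mem_support_iff.2 h1)
  have h2 : (s.sum fun _ e => e) = s.degree := rfl
  have h3 := hs.2
  omega

theorem ONE2_T_rename {k : Type} [Field k] {n m : ℕ} (f : Fin n → Fin m)
    (hf : Function.Injective f) (p : MvPolynomial (Fin n) k) (d : ℕ) :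
    ONE2_T (rename f p) d ≤ ONE2_T p d := by
  unfold ONE2_T
  rw [support_rename_of_injective hf]
  have : (Finset.image (Finsupp.mapDomain f) p.support).filter (fun s => s.degree = d) ⊆
      (p.support.filter (fun s => s.degree = d)).image (Finsupp.mapDomain f) := by
    intro s hs
    rw [Finset.mem_filter, Finset.mem_image] at hs
    obtain ⟨⟨t, ht, rfl⟩, hd⟩ := hs
    rw [Finsupp.degree_mapDomain] at hd
    exact Finset.mem_image.2 ⟨t, Finset.mem_filter.2 ⟨ht, hd⟩, rfl⟩
  exact (Finset.card_le_card this).trans Finset.card_image_le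

theorem ONE2_T_sub {k : Type} [Field k] {n : ℕ} (p : MvPolynomial (Fin n) k) (d : ℕ)
    (s : Fin n →₀ ℕ) (hs : s ∈ p.support) (hd : s.degree = d) :
    ONE2_T (p - monomial s (coeff s p)) d + 1 ≤ ONE2_T p d := by
  unfold ONE2_T
  rw [Nat.add_one_le_iff]
  apply Finset.card_lt_card
  rw [Finset.ssubset_iff_of_subset]
  · refine ⟨s, Finset.mem_filter.2 ⟨hs, hd⟩, ?_⟩
    intro h
    have := (Finset.mem_filter.1 h).1
    rw [mem_support_iff, coeff_sub, coeff_monomial] at this
    simp at this
  · intro t ht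
    rw [Finset.mem_filter] at ht ⊢
    refine ⟨?_, ht.2⟩
    by_cases hts : t = s
    · rw [hts]; exact hs
    · have h1 := ht.1
      rw [mem_support_iff, coeff_sub, coeff_monomial, if_neg (fun e => hts e.symm), sub_zero] at h1
      exact mem_support_iff.2 h1

theorem p_ONE2 : S_ONE := by
  intro k _ n d N φ hd4 hdeg htop
  classical
  have htop' : ∑ i : Fin n, ONE2_T (φ (X i)) d = N + 1 := htop
  -- the monomial
  obtain ⟨i0, -, hi0⟩ : ∃ i0 ∈ (Finset.univ : Finset (Fin n)), ONE2_T (φ (X i0)) d ≠ 0 := by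
    apply Finset.exists_ne_zero_of_sum_ne_zero
    rw [htop']
    omega
  have hne : (((φ (X i0)).support.filter (fun s => s.degree = d))).Nonempty := by
    rw [← Finset.card_ne_zero]
    exact hi0
  obtain ⟨s, hs⟩ := hne
  rw [Finset.mem_filter] at hs
  obtain ⟨hs, hsd⟩ := hs
  obtain ⟨p, hps, hp2⟩ := ONE2_part s 2 (by omega)
  set q := s - p with hq
  have hpq : p + q = s := add_tsub_cancel_of_le hps
  have hqd : q.degree = d - 2 := by
    have : p.degree + q.degree = s.degree := by rw [← map_add, hpq]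
    omega
  set c := coeff s (φ (X i0)) with hc
  set ca : Fin n → Fin (n + 2) := Fin.castAdd 2 with hca
  have hcainj : Function.Injective ca := Fin.castAdd_injective n 2
  set u : Fin (n + 2) := Fin.natAdd n (0 : Fin 2) with hu
  set v : Fin (n + 2) := Fin.natAdd n (1 : Fin 2) with hv
  have huv : u ≠ v := by
    rw [hu, hv]
    intro h
    have := (Fin.natAdd_injective 2 n) h
    exact absurd this (by decide)
  have hcau : ∀ i, ca i ≠ u := by
    intro i h
    have := congrArg Fin.val h
    simp [hca, hu] at this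
    omega
  have hcav : ∀ i, ca i ≠ v := by
    intro i h
    have := congrArg Fin.val h
    simp [hca, hv] at this
    omega
  have hvars : ∀ (w : Fin (n + 2)) (_ : ∀ i, ca i ≠ w) (r : MvPolynomial (Fin n) k),
      w ∉ (rename ca r).vars := by
    intro w hw r h
    have := vars_rename ca r h
    rw [Finset.mem_image] at this
    obtain ⟨i, -, hi⟩ := this
    exact hw i hi
  set P : MvPolynomial (Fin (n + 2)) k := rename ca (monomial p 1) with hP
  set Q : MvPolynomial (Fin (n + 2)) k := rename ca (monomial q 1) with hQ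
  set A : Au k (n + 2) := ONE2_eq u P (hvars u hcau _) * ONE2_eq v Q (hvars v hcav _) with hA
  have hiuv : ca i0 ∉ (-(C c * (X u * X v)) : MvPolynomial (Fin (n + 2)) k).vars := by
    rw [vars_neg]
    intro h
    have h1 := vars_mul _ _ h
    rw [vars_C, Finset.empty_union] at h1
    have h2 := vars_mul _ _ h1
    rw [vars_X, vars_X, Finset.mem_union, Finset.mem_singleton, Finset.mem_singleton] at h2
    rcases h2 with h2 | h2
    · exact hcau i0 h2
    · exact hcav i0 h2
  set B : Au k (n + 2) := ONE2_eq (ca i0) (-(C c * (X u * X v))) hiuv with hB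
  have hAren : ∀ r : MvPolynomial (Fin n) k, A (rename ca r) = rename ca r := by
    intro r
    rw [hA, AlgEquiv.mul_apply, ONE2_eq_fix v Q _ _ (hvars v hcav _),
      ONE2_eq_fix u P _ _ (hvars u hcau _)]
  have hAu : A (X u) = X u + P := by
    rw [hA, AlgEquiv.mul_apply, ONE2_eq_ne v Q _ u huv, ONE2_eq_self]
  have hAv : A (X v) = X v + Q := by
    rw [hA, AlgEquiv.mul_apply, ONE2_eq_self, map_add, ONE2_eq_ne u P _ v (Ne.symm huv), hQ,
      ONE2_eq_fix u P _ _ (hvars u hcau _)]
  set φ2 : Au k (n + 2) := ONE2_exte φ with hφ2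
  have h2l : ∀ i : Fin n, φ2 (X (ca i)) = rename ca (φ (X i)) := fun i => ONE2_exte_l φ i
  have h2r : ∀ j : Fin 2, φ2 (X (Fin.natAdd n j)) = X (Fin.natAdd n j) := fun j => ONE2_exte_r φ j
  have h2u : φ2 (X u) = X u := h2r 0
  have h2v : φ2 (X v) = X v := h2r 1
  have hC : ∀ (σ : Au k (n + 2)) (a : k), σ (C a) = C a := fun σ a => by
    rw [← algebraMap_eq]
    exact σ.commutes a
  have hPQ : C c * (P * Q) = rename ca (monomial s c) := by
    rw [hP, hQ, ← map_mul, monomial_mul, hpq, one_mul, ← rename_C (f := ca) (r := c), ← map_mul,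
      C_mul_monomial, mul_one]
  have e1 : ∀ i : Fin n, i ≠ i0 → (A * φ2 * B) (X (ca i)) = rename ca (φ (X i)) := by
    intro i hi
    rw [AlgEquiv.mul_apply, AlgEquiv.mul_apply, hB,
      ONE2_eq_ne _ _ _ _ (fun h => hi (hcainj h)), h2l, hAren]
  have e2 : (A * φ2 * B) (X (ca i0)) = rename ca (φ (X i0) - monomial s c) +
      (-(C c * (X u * Q + P * X v + X u * X v))) := by
    rw [AlgEquiv.mul_apply, AlgEquiv.mul_apply, hB, ONE2_eq_self, map_add, h2l, map_neg, map_mul,
      map_mul, hC, h2u, h2v, map_add, hAren, map_neg, map_mul, map_mul, hC, hAu, hAv, map_sub,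
      ← hPQ]
    ring
  have e3 : (A * φ2 * B) (X u) = X u + P := by
    rw [AlgEquiv.mul_apply, AlgEquiv.mul_apply, hB, ONE2_eq_ne _ _ _ _ (fun h => hcau i0 h.symm),
      h2u, hAu]
  have e4 : (A * φ2 * B) (X v) = X v + Q := by
    rw [AlgEquiv.mul_apply, AlgEquiv.mul_apply, hB, ONE2_eq_ne _ _ _ _ (fun h => hcav i0 h.symm),
      h2v, hAv]
  -- degrees
  have hPd : P.totalDegree ≤ 2 := by
    refine (totalDegree_rename_le _ _).trans ?_
    refine (totalDegree_monomial_le _ _).trans ?_
    exact hp2.le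
  have hQd : Q.totalDegree ≤ d - 2 := by
    refine (totalDegree_rename_le _ _).trans ?_
    refine (totalDegree_monomial_le _ _).trans ?_
    exact hqd.le
  have hXd : ∀ w : Fin (n + 2), (X w : MvPolynomial (Fin (n + 2)) k).totalDegree = 1 :=
    fun w => totalDegree_X w
  have hrem : (-(C c * (X u * Q + P * X v + X u * X v)) :
      MvPolynomial (Fin (n + 2)) k).totalDegree < d := by
    rw [totalDegree_neg]
    have a1 := totalDegree_mul (C c) (X u * Q + P * X v + X u * X v : MvPolynomial (Fin (n + 2)) k)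
    rw [totalDegree_C, zero_add] at a1
    have a2 := totalDegree_add (X u * Q + P * X v) (X u * X v : MvPolynomial (Fin (n + 2)) k)
    have a3 := totalDegree_add (X u * Q) (P * X v : MvPolynomial (Fin (n + 2)) k)
    have a4 := totalDegree_mul (X u) Q
    have a5 := totalDegree_mul P (X v)
    have a6 := totalDegree_mul (X u : MvPolynomial (Fin (n + 2)) k) (X v)
    rw [hXd] at a4 a5
    rw [hXd, hXd] at a6
    have b1 : max (X u * Q).totalDegree (P * X v).totalDegree ≤ d - 1 :=
      max_le (by omega) (by omega)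
    have b2 : max (X u * Q + P * X v).totalDegree
        (X u * X v : MvPolynomial (Fin (n + 2)) k).totalDegree ≤ d - 1 :=
      max_le (by omega) (by omega)
    omega
  have huP : (X u + P).totalDegree < d := by
    have a := totalDegree_add (X u) P
    have b : max (X u : MvPolynomial (Fin (n + 2)) k).totalDegree P.totalDegree ≤ 2 :=
      max_le (by rw [hXd]; omega) hPd
    omega
  have hvQ : (X v + Q).totalDegree < d := by
    have a := totalDegree_add (X v) Q
    have b : max (X v : MvPolynomial (Fin (n + 2)) k).totalDegree Q.totalDegree ≤ d - 1 :=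
      max_le (by rw [hXd]; omega) (by omega)
    omega
  have hF0 : (φ (X i0) - monomial s c).totalDegree ≤ d := by
    refine (totalDegree_sub _ _).trans (max_le (hdeg i0) ?_)
    refine (totalDegree_monomial_le _ _).trans ?_
    exact hsd.le
  refine ⟨A * φ2 * B, ⟨A, ?_, B, ?_, φ2, ⟨h2l, h2r⟩, rfl⟩, ?_, ?_⟩
  · exact Subgroup.mul_mem _ (ONE2_eq_mem _ _ _) (ONE2_eq_mem _ _ _)
  · exact ONE2_eq_mem _ _ _
  · intro i
    refine Fin.addCases (fun i => ?_) (fun j => ?_) i
    · by_cases hi : i = i0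
      · subst hi
        change ((A * φ2 * B) (X (ca i))).totalDegree ≤ d
        rw [e2]
        refine (totalDegree_add _ _).trans (max_le ?_ hrem.le)
        exact (totalDegree_rename_le _ _).trans hF0
      · change ((A * φ2 * B) (X (ca i))).totalDegree ≤ d
        rw [e1 i hi]
        exact (totalDegree_rename_le _ _).trans (hdeg i)
    · fin_cases j
      · change ((A * φ2 * B) (X u)).totalDegree ≤ d
        rw [e3]
        exact huP.le
      · change ((A * φ2 * B) (X v)).totalDegree ≤ d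
        rw [e4]
        exact hvQ.le
  · change ∑ i : Fin (n + 2), ONE2_T ((A * φ2 * B) (X i)) d ≤ N
    rw [Fin.sum_univ_add, Fin.sum_univ_two]
    change ∑ i : Fin n, ONE2_T ((A * φ2 * B) (X (ca i))) d +
      (ONE2_T ((A * φ2 * B) (X u)) d + ONE2_T ((A * φ2 * B) (X v)) d) ≤ N
    rw [e3, e4, ONE2_T_zero _ _ huP, ONE2_T_zero _ _ hvQ, add_zero, add_zero]
    have hlt : ∑ i : Fin n, ONE2_T ((A * φ2 * B) (X (ca i))) d < ∑ i : Fin n, ONE2_T (φ (X i)) d := by
      apply Finset.sum_lt_sum
      · intro i _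
        by_cases hi : i = i0
        · subst hi
          rw [e2]
          refine (ONE2_T_add _ _ _ hrem).trans ((ONE2_T_rename ca hcainj _ _).trans ?_)
          have := ONE2_T_sub (φ (X i)) d s hs hsd
          rw [← hc] at this
          omega
        · rw [e1 i hi]
          exact ONE2_T_rename ca hcainj _ _
      · refine ⟨i0, Finset.mem_univ _, ?_⟩
        rw [e2]
        refine lt_of_le_of_lt ((ONE2_T_add _ _ _ hrem).trans (ONE2_T_rename ca hcainj _ _)) ?_
        have := ONE2_T_sub (φ (X i0)) d s hs hsd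
        rw [← hc] at this
        omega
    omega

end

end Pool.GR
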