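import Pool.Agent.Work.MP_91aed7_gr.Interface

/-!
# Block STP: a step does not change stable tameness
-/

set_option autoImplicit false

namespace Pool.GR

noncomputable section

open MvPolynomial Pool.AM

theorem STP_hom {k : Type} [Field k] {σ κ : Type} (e : σ → κ)
    (A : MvPolynomial σ k ≃ₐ[k] MvPolynomial σ k) (A' : MvPolynomial κ k ≃ₐ[k] MvPolynomial κ k)
    (h : ∀ a : σ, A' (X (e a)) = rename e (A (X a))) (p : MvPolynomial σ k) :
    A' (rename e p) = rename e (A p) := by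
  have h1 : (A' : MvPolynomial κ k →ₐ[k] MvPolynomial κ k).comp (rename e)
      = (rename e).comp (A : MvPolynomial σ k →ₐ[k] MvPolynomial σ k) := by
    apply MvPolynomial.algHom_ext
    intro a
    simp only [AlgHom.comp_apply, rename_X, AlgEquiv.coe_toAlgHom]
    exact h a
  exact DFunLike.congr_fun h1 p

theorem STP_emb (n : ℕ) : Function.Injective (emb n 2) := by
  intro a b
  refine Fin.addCases (fun i => ?_) (fun i => ?_) a <;>
    refine Fin.addCases (fun j => ?_) (fun j => ?_) b <;>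
    simp only [emb, Fin.addCases_left, Fin.addCases_right] <;> intro h
  · rw [Sum.inl.inj h]
  · cases h
  · cases h
  · rw [Fin.ext (Sum.inr.inj h)]

theorem STP_emb_ne (n j : ℕ) : (Sum.inr (j + 2) : Vr n) ∉ Set.range (emb n 2) := by
  rintro ⟨a, ha⟩
  revert ha
  refine Fin.addCases (fun i => ?_) (fun i => ?_) a <;>
    simp only [emb, Fin.addCases_left, Fin.addCases_right] <;> intro h
  · cases h
  · have := Sum.inr.inj h
    omega

/-- the bijection of the variables -/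
def STP_rho (n : ℕ) : Vr (n + 2) → Vr n := Sum.elim (emb n 2) (fun j => Sum.inr (j + 2))

theorem STP_rho_inj (n : ℕ) : Function.Injective (STP_rho n) := by
  rintro (a | a) (b | b) h
  · rw [STP_emb n h]
  · exact absurd ⟨a, h⟩ (STP_emb_ne n b)
  · exact absurd ⟨b, h.symm⟩ (STP_emb_ne n a)
  · have := Sum.inr.inj h
    rw [Nat.add_right_cancel this]

theorem STP_rho_surj (n : ℕ) : Function.Surjective (STP_rho n) := by
  rintro (i | j)
  · exact ⟨Sum.inl (Fin.castAdd 2 i), by simp [STP_rho, emb]⟩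
  · by_cases hj : j < 2
    · refine ⟨Sum.inl (Fin.natAdd n ⟨j, hj⟩), ?_⟩
      simp only [STP_rho, Sum.elim_inl, emb, Fin.addCases_right]
    · refine ⟨Sum.inr (j - 2), ?_⟩
      simp only [STP_rho, Sum.elim_inr]
      congr 1
      omega

theorem p_STP (hEXTI : S_EXTI) (hINFI : S_INFI) (hINFD : S_INFD) (hEXT : Pool.AM.Stmt_EXT) :
    S_STP := by
  intro k _ n φ φ' hstep hst
  obtain ⟨A, hA, B, hB, φ2, hφ2, hφ'⟩ := hstep
  obtain ⟨Φ, hΦ, _, _⟩ := hEXT k n φ
  obtain ⟨Φ', hΦ', _, _⟩ := hEXT k (n + 2) φ'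
  have hT := hINFI k (n + 2) φ' hst Φ' hΦ'
  obtain ⟨T', hT'm, hT'1, _⟩ := hEXTI k (Vr (n + 2)) (Vr n) (STP_rho n) (STP_rho_inj n) Φ' hT
  obtain ⟨A', hA'm, hA'1, hA'2⟩ := hEXTI k (Fin (n + 2)) (Vr n) (emb n 2) (STP_emb n) A hA
  obtain ⟨B', hB'm, hB'1, hB'2⟩ := hEXTI k (Fin (n + 2)) (Vr n) (emb n 2) (STP_emb n) B hB
  have hΦ1 : ∀ a : Fin (n + 2), Φ (X (emb n 2 a)) = rename (emb n 2) (φ2 (X a)) := by
    intro a
    refine Fin.addCases (fun i => ?_) (fun j => ?_) a
    · rw [hφ2.1 i, rename_rename]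
      have h1 : emb n 2 (Fin.castAdd 2 i) = Sum.inl i := by simp [emb]
      have h2 : (emb n 2 ∘ Fin.castAdd 2 : Fin n → Vr n) = Sum.inl := by
        funext x; simp [emb]
      rw [h1, h2, hΦ.1 i]
    · have h1 : emb n 2 (Fin.natAdd n j) = Sum.inr (j : ℕ) := by simp [emb]
      rw [hφ2.2 j, rename_X, h1, hΦ.2 j]
  have key : T' = A' * Φ * B' := by
    have h1 : (T' : PS k n →ₐ[k] PS k n) = ((A' * Φ * B' : PS k n ≃ₐ[k] PS k n) :
        PS k n →ₐ[k] PS k n) := by
      apply MvPolynomial.algHom_ext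
      intro v
      obtain ⟨u, rfl⟩ := STP_rho_surj n v
      change T' (X (STP_rho n u)) = A' (Φ (B' (X (STP_rho n u))))
      rw [hT'1 u]
      rcases u with a | j
      · have h2 : (STP_rho n ∘ Sum.inl : Fin (n + 2) → Vr n) = emb n 2 := rfl
        have h3 : STP_rho n (Sum.inl a) = emb n 2 a := rfl
        rw [hΦ'.1 a, rename_rename, h2, h3, hφ', hB'1 a, STP_hom _ φ2 Φ hΦ1, STP_hom _ A A' hA'1]
        rfl
      · have h3 : STP_rho n (Sum.inr j) = Sum.inr (j + 2) := rfl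
        rw [hΦ'.2 j, rename_X, h3, hB'2 _ (STP_emb_ne n j), hΦ.2, hA'2 _ (STP_emb_ne n j)]
    ext1 p
    exact DFunLike.congr_fun h1 p
  have hΦm : Φ ∈ Tm k (Vr n) := by
    have h1 : Φ = A'⁻¹ * T' * B'⁻¹ := by rw [key]; group
    rw [h1]
    exact mul_mem (mul_mem (inv_mem hA'm) hT'm) (inv_mem hB'm)
  exact hINFD k n φ Φ hΦ hΦm

end

end Pool.GR
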