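import Pool.Agent.Work.MP_91aed7_am_helper54.Main
import Pool.Agent.Work.MP_91aed7_gr.B_AFF
import Pool.Agent.Work.MP_91aed7_gr.B_EXTI
import Pool.Agent.Work.MP_91aed7_gr.B_INFI
import Pool.Agent.Work.MP_91aed7_gr.B_INFD
import Pool.Agent.Work.MP_91aed7_gr.B_MAT
import Pool.Agent.Work.MP_91aed7_gr.B_LIFT
import Pool.Agent.Work.MP_91aed7_gr.B_GRAD
import Pool.Agent.Work.MP_91aed7_gr.B_CMP
import Pool.Agent.Work.MP_91aed7_gr.B_STP
import Pool.Agent.Work.MP_91aed7_gr.B_ONE2
import Pool.Agent.Work.MP_91aed7_gr.B_DEG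

set_option autoImplicit false

namespace Pool.GR

theorem aff : S_AFF := p_AFF
theorem exti : S_EXTI := p_EXTI
theorem infi : S_INFI := p_INFI aff exti
theorem infd : S_INFD := p_INFD Pool.AM.stmt_DSC
theorem mat : S_MAT := p_MAT Pool.AM.main_SUS Pool.AM.main_LIN
theorem lift' : S_LIFT := p_LIFT
theorem grad : S_GRAD := p_GRAD
theorem cmp : S_CMP := p_CMP mat infi infd exti Pool.AM.stmt_EXT Pool.AM.stmt_JAC
theorem stp : S_STP := p_STP exti infi infd Pool.AM.stmt_EXT
theorem one' : S_ONE := p_ONE2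
theorem deg : S_DEG := p_DEG one' stp

theorem main_thm : Target := assembly lift' grad cmp deg

end Pool.GR
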