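import Pool.Agent.Work.MP_91aed7_gr.Interface

set_option autoImplicit false

namespace Pool.GR

noncomputable section

open MvPolynomial Pool.AM

theorem DEG_lower {k : Type} [Field k] {n d : ℕ} (φ : Au k n)
    (h : ∀ i, (φ (X i)).totalDegree ≤ d + 1) (h0 : topNum φ (d + 1) = 0) :
    ∀ i, (φ (X i)).totalDegree ≤ d := by
  intro i
  have h1 : ((φ (X i)).support.filter (fun s => s.degree = d + 1)).card = 0 := by
    have := Finset.sum_eq_zero_iff.mp h0 i (Finset.mem_univ i)
    exact this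
  rw [Finset.card_eq_zero] at h1
  unfold MvPolynomial.totalDegree
  apply Finset.sup_le
  intro s hs
  have h2 : s.sum (fun _ e => e) ≤ d + 1 := (MvPolynomial.le_totalDegree hs).trans (h i)
  have h3 : s.degree = s.sum (fun _ e => e) := by
    rw [Finsupp.degree]
    rfl
  by_contra hc
  push Not at hc
  have h4 : s.degree = d + 1 := by omega
  have h5 : s ∈ (φ (X i)).support.filter (fun s => s.degree = d + 1) :=
    Finset.mem_filter.mpr ⟨hs, h4⟩
  rw [h1] at h5
  simp at h5

theorem DEG_aux (hONE : S_ONE) (hSTP : S_STP) (k : Type) [Field k] (e : ℕ) :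
    ∀ (N n : ℕ) (φ : Au k n), (∀ i, (φ (X i)).totalDegree ≤ 3 + e) → topNum φ (3 + e) ≤ N →
      ∃ (m : ℕ) (φ' : Au k m), (∀ i, (φ' (X i)).totalDegree ≤ 3) ∧ (StTame φ' → StTame φ) := by
  induction e with
  | zero => exact fun N n φ h _ => ⟨n, φ, h, id⟩
  | succ e ih =>
    intro N
    induction N with
    | zero =>
      intro n φ h h0
      exact ih _ n φ (DEG_lower φ h (Nat.le_zero.mp h0)) le_rfl
    | succ N ihN =>
      intro n φ h hN
      rcases Nat.lt_or_ge (topNum φ (3 + (e + 1))) (N + 1) with hlt | hge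
      · exact ihN n φ h (Nat.lt_succ_iff.mp hlt)
      · obtain ⟨φ', hstep, h1, h2⟩ := hONE k n (3 + (e + 1)) N φ (by omega) h (le_antisymm hN hge)
        obtain ⟨m, φ'', h3, h4⟩ := ihN (n + 2) φ' h1 h2
        exact ⟨m, φ'', h3, fun ht => hSTP k n φ φ' hstep (h4 ht)⟩

theorem p_DEG (hONE : S_ONE) (hSTP : S_STP) : S_DEG := by
  intro k _ n φ
  refine DEG_aux hONE hSTP k (Finset.univ.sup fun i => (φ (X i)).totalDegree) _ n φ (fun i => ?_)
    le_rfl
  have := Finset.le_sup (f := fun i => (φ (X i)).totalDegree) (Finset.mem_univ i)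
  exact this.trans (Nat.le_add_left _ _)

end

end Pool.GR
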