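import Pool.Agent.Work.MP_91aed7_gr.Interface
import Pool.Agent.Work.MP_91aed7_am_helper70.START

set_option autoImplicit false

namespace Pool.GR

noncomputable section

open MvPolynomial Pool.AM

variable {k : Type} [Field k] {n : ℕ}

/-- extension by two variables -/
def ONE_ex (φ : MvPolynomial (Fin n) k →ₐ[k] MvPolynomial (Fin n) k) :
    MvPolynomial (Fin (n + 2)) k →ₐ[k] MvPolynomial (Fin (n + 2)) k :=
  aeval (Fin.addCases (fun i => rename (Fin.castAdd 2) (φ (X i))) (fun j => X (Fin.natAdd n j)))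

theorem ONE_ex_l (φ : MvPolynomial (Fin n) k →ₐ[k] MvPolynomial (Fin n) k) (i : Fin n) :
    ONE_ex φ (X (Fin.castAdd 2 i)) = rename (Fin.castAdd 2) (φ (X i)) := by
  unfold ONE_ex
  rw [aeval_X, Fin.addCases_left]

theorem ONE_ex_r (φ : MvPolynomial (Fin n) k →ₐ[k] MvPolynomial (Fin n) k) (j : Fin 2) :
    ONE_ex φ (X (Fin.natAdd n j)) = X (Fin.natAdd n j) := by
  unfold ONE_ex
  rw [aeval_X, Fin.addCases_right]

theorem ONE_ex_rename (φ : MvPolynomial (Fin n) k →ₐ[k] MvPolynomial (Fin n) k)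
    (f : MvPolynomial (Fin n) k) :
    ONE_ex φ (rename (Fin.castAdd 2) f) = rename (Fin.castAdd 2) (φ f) := by
  have h : (ONE_ex φ).comp (rename (Fin.castAdd 2)) = (rename (Fin.castAdd 2)).comp φ := by
    apply MvPolynomial.algHom_ext
    intro i
    simp only [AlgHom.comp_apply, rename_X]
    exact ONE_ex_l φ i
  exact congrArg (fun g => g f) h

theorem ONE_ex_comp (φ ψ : MvPolynomial (Fin n) k →ₐ[k] MvPolynomial (Fin n) k) :
    (ONE_ex φ).comp (ONE_ex ψ) = ONE_ex (φ.comp ψ) := by
  apply MvPolynomial.algHom_ext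
  intro a
  refine Fin.addCases (fun i => ?_) (fun j => ?_) a
  · rw [AlgHom.comp_apply, ONE_ex_l, ONE_ex_rename, ONE_ex_l]
    rfl
  · rw [AlgHom.comp_apply, ONE_ex_r, ONE_ex_r, ONE_ex_r]

theorem ONE_ex_id : ONE_ex (AlgHom.id k (MvPolynomial (Fin n) k)) = AlgHom.id k _ := by
  apply MvPolynomial.algHom_ext
  intro a
  refine Fin.addCases (fun i => ?_) (fun j => ?_) a
  · rw [ONE_ex_l]
    simp
  · rw [ONE_ex_r]
    simp

/-- the extension of an automorphism -/
def ONE_ee (φ : Au k n) : Au k (n + 2) :=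
  AlgEquiv.ofAlgHom (ONE_ex (φ : MvPolynomial (Fin n) k →ₐ[k] MvPolynomial (Fin n) k))
    (ONE_ex (φ.symm : MvPolynomial (Fin n) k →ₐ[k] MvPolynomial (Fin n) k))
    (by rw [ONE_ex_comp, ← ONE_ex_id]; congr 1; ext i; simp)
    (by rw [ONE_ex_comp, ← ONE_ex_id]; congr 1; ext i; simp)

theorem ONE_ee_ext (φ : Au k n) : IsExt φ 2 (ONE_ee φ) :=
  ⟨fun i => ONE_ex_l (φ : MvPolynomial (Fin n) k →ₐ[k] MvPolynomial (Fin n) k) i,
    fun j => ONE_ex_r (φ : MvPolynomial (Fin n) k →ₐ[k] MvPolynomial (Fin n) k) j⟩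

theorem ONE_fixA (A : Au k (n + 2)) (hA : ∀ i : Fin n, A (X (Fin.castAdd 2 i)) = X (Fin.castAdd 2 i))
    (f : MvPolynomial (Fin n) k) :
    A (rename (Fin.castAdd 2) f) = rename (Fin.castAdd 2) f := by
  have h : ((A : MvPolynomial (Fin (n + 2)) k →ₐ[k] MvPolynomial (Fin (n + 2)) k).comp
      (rename (Fin.castAdd 2))) = rename (Fin.castAdd 2) := by
    apply MvPolynomial.algHom_ext
    intro i
    simp only [AlgHom.comp_apply, rename_X]
    exact hA i
  exact congrArg (fun g => g f) h

/-- the number of monomials of degree `d` -/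
def ONE_TT {σ : Type} (f : MvPolynomial σ k) (d : ℕ) : ℕ :=
  (f.support.filter (fun s => s.degree = d)).card

theorem ONE_deg_le {σ : Type} (f : MvPolynomial σ k) (s : σ →₀ ℕ) (hs : s ∈ f.support) :
    s.degree ≤ f.totalDegree := le_totalDegree hs

theorem ONE_L1 {σ : Type} (f : MvPolynomial σ k) (d : ℕ) (h : f.totalDegree < d) :
    ONE_TT f d = 0 := by
  unfold ONE_TT
  rw [Finset.card_eq_zero, Finset.filter_eq_empty_iff]
  intro s hs h1
  have := ONE_deg_le f s hs
  omega

theorem ONE_mapDeg {σ τ : Type} (e : σ → τ) (s : σ →₀ ℕ) :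
    (Finsupp.mapDomain e s).degree = s.degree := by
  show (Finsupp.mapDomain e s).sum (fun _ a => a) = s.sum (fun _ a => a)
  exact Finsupp.sum_mapDomain_index (fun _ => rfl) (fun _ _ _ => rfl)

theorem ONE_L2 {σ τ : Type} (e : σ → τ) (he : Function.Injective e) (f : MvPolynomial σ k)
    (d : ℕ) : ONE_TT (rename e f) d ≤ ONE_TT f d := by
  classical
  unfold ONE_TT
  rw [support_rename_of_injective he]
  refine le_trans (Finset.card_le_card ?_)
    (Finset.card_image_le (s := f.support.filter (fun s => s.degree = d))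
      (f := Finsupp.mapDomain e))
  intro t ht
  obtain ⟨h1, h2⟩ := Finset.mem_filter.1 ht
  obtain ⟨s, hs, rfl⟩ := Finset.mem_image.1 h1
  rw [ONE_mapDeg] at h2
  exact Finset.mem_image.2 ⟨s, Finset.mem_filter.2 ⟨hs, h2⟩, rfl⟩

theorem ONE_L3 {σ : Type} (f R : MvPolynomial σ k) (d : ℕ) (h : R.totalDegree < d) :
    ONE_TT (f - R) d ≤ ONE_TT f d := by
  unfold ONE_TT
  apply Finset.card_le_card
  intro s hs
  obtain ⟨h1, h2⟩ := Finset.mem_filter.1 hs
  refine Finset.mem_filter.2 ⟨?_, h2⟩
  rw [mem_support_iff] at h1 ⊢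
  have h3 : coeff s R = 0 := by
    by_contra hc
    have := ONE_deg_le R s (mem_support_iff.2 hc)
    omega
  rwa [coeff_sub, h3, sub_zero] at h1

theorem ONE_L4 {σ : Type} (f : MvPolynomial σ k) (s : σ →₀ ℕ) (d : ℕ) (hs : s ∈ f.support)
    (hd : s.degree = d) : ONE_TT (f - monomial s (coeff s f)) d + 1 ≤ ONE_TT f d := by
  classical
  unfold ONE_TT
  have hmem : s ∈ f.support.filter (fun s => s.degree = d) := Finset.mem_filter.2 ⟨hs, hd⟩
  have h1 : (f - monomial s (coeff s f)).support.filter (fun s => s.degree = d) ⊆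
      (f.support.filter (fun s => s.degree = d)).erase s := by
    intro t ht
    obtain ⟨h1, h2⟩ := Finset.mem_filter.1 ht
    rw [mem_support_iff, coeff_sub, coeff_monomial] at h1
    have hts : t ≠ s := by
      rintro rfl
      rw [if_pos rfl, sub_self] at h1
      exact h1 rfl
    rw [if_neg (Ne.symm hts), sub_zero] at h1
    exact Finset.mem_erase.2 ⟨hts, Finset.mem_filter.2 ⟨mem_support_iff.2 h1, h2⟩⟩
  have h2 := Finset.card_le_card h1
  rw [Finset.card_erase_of_mem hmem] at h2
  have h3 : 0 < (f.support.filter (fun s => s.degree = d)).card := Finset.card_pos.2 ⟨s, hmem⟩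
  omega

theorem ONE_peel {σ : Type} (s : σ →₀ ℕ) (h : 0 < s.degree) :
    ∃ (a : σ) (s' : σ →₀ ℕ), s = Finsupp.single a 1 + s' ∧ s'.degree + 1 = s.degree := by
  classical
  have hne : s ≠ 0 := by
    rintro rfl
    simp at h
  obtain ⟨a, ha⟩ := Finsupp.ne_iff.1 hne
  have h1 : Finsupp.single a 1 ≤ s := by
    rw [Finsupp.single_le_iff]
    have : s a ≠ 0 := ha
    omega
  refine ⟨a, s - Finsupp.single a 1, (add_tsub_cancel_of_le h1).symm, ?_⟩
  have h2 : s.degree = (Finsupp.single a 1 + (s - Finsupp.single a 1)).degree := by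
    rw [add_tsub_cancel_of_le h1]
  rw [h2, map_add, Finsupp.degree_single]
  ring

theorem p_ONE : S_ONE := by
  classical
  intro k _ n d N φ hd htd htop
  -- the monomial
  have hpos : 0 < topNum φ d := by omega
  obtain ⟨i0, hi0⟩ : ∃ i0, 0 < ((φ (X i0)).support.filter (fun s => s.degree = d)).card := by
    by_contra hc
    push Not at hc
    have : topNum φ d = 0 := by
      unfold topNum
      exact Finset.sum_eq_zero fun i _ => Nat.le_zero.1 (hc i)
    omega
  obtain ⟨s, hs⟩ := Finset.card_pos.1 hi0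
  obtain ⟨hs1, hs2⟩ := Finset.mem_filter.1 hs
  obtain ⟨a, s1, e1, d1⟩ := ONE_peel s (by omega)
  obtain ⟨b, q, e2, d2⟩ := ONE_peel s1 (by omega)
  set p : Fin n →₀ ℕ := Finsupp.single a 1 + Finsupp.single b 1 with hp
  have hpd : p.degree = 2 := by
    rw [hp, map_add, Finsupp.degree_single, Finsupp.degree_single]
  have hpq : s = p + q := by rw [e1, e2, hp, add_assoc]
  set c : k := coeff s (φ (X i0)) with hc
  set e : Fin n → Fin (n + 2) := Fin.castAdd 2 with he
  have hinj : Function.Injective e := Fin.castAdd_injective n 2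
  set u : Fin (n + 2) := Fin.natAdd n 0 with hu
  set v : Fin (n + 2) := Fin.natAdd n 1 with hv
  have hue : ∀ i, u ≠ e i := by
    intro i h
    have := congrArg Fin.val h
    rw [hu, he, Fin.val_natAdd, Fin.val_castAdd] at this
    have := i.2
    omega
  have hve : ∀ i, v ≠ e i := by
    intro i h
    have := congrArg Fin.val h
    rw [hv, he, Fin.val_natAdd, Fin.val_castAdd] at this
    have := i.2
    omega
  have huv : u ≠ v := by
    intro h
    have := congrArg Fin.val h
    rw [hu, hv, Fin.val_natAdd, Fin.val_natAdd] at this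
    simp at this
  set P : MvPolynomial (Fin (n + 2)) k := rename e (monomial p 1) with hP
  set Q : MvPolynomial (Fin (n + 2)) k := rename e (monomial q 1) with hQ
  have hvars : ∀ (w : Fin (n + 2)) (f : MvPolynomial (Fin n) k), (∀ i, w ≠ e i) →
      w ∉ (rename e f).vars := by
    intro w f hw hm
    obtain ⟨i, -, hi⟩ := Finset.mem_image.1 (vars_rename e f hm)
    exact hw i hi.symm
  obtain ⟨A1, hA1u, hA1⟩ := Pool.AM.START_.exists_el u P (hvars u _ hue)
  obtain ⟨A2, hA2v, hA2⟩ := Pool.AM.START_.exists_el v Q (hvars v _ hve)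
  have hBv : e i0 ∉ (C (-c) * (X u * X v) : MvPolynomial (Fin (n + 2)) k).vars := by
    intro hm
    have h1 := vars_mul _ _ hm
    rw [vars_C, Finset.empty_union] at h1
    have h2 := vars_mul _ _ h1
    rw [vars_X, vars_X, Finset.mem_union, Finset.mem_singleton, Finset.mem_singleton] at h2
    rcases h2 with h2 | h2
    · exact hue i0 h2.symm
    · exact hve i0 h2.symm
  obtain ⟨B, hBi, hB⟩ := Pool.AM.START_.exists_el (e i0) (C (-c) * (X u * X v)) hBv
  have hext := ONE_ee_ext φ
  -- the values of `A = A1 * A2`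
  have hAe : ∀ i, (A1 * A2) (X (e i)) = X (e i) := by
    intro i
    rw [AlgEquiv.mul_apply, hA2 _ (hve i).symm, hA1 _ (hue i).symm]
  have hAr : ∀ f, (A1 * A2) (rename e f) = rename e f := ONE_fixA (A1 * A2) hAe
  have hAu : (A1 * A2) (X u) = X u + P := by
    rw [AlgEquiv.mul_apply, hA2 _ huv, hA1u]
  have hAv : (A1 * A2) (X v) = X v + Q := by
    rw [AlgEquiv.mul_apply, hA2v, map_add, hA1 _ huv.symm]
    congr 1
    exact ONE_fixA A1 (fun i => hA1 _ (hue i).symm) _
  -- the values of the new automorphism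
  have hval1 : ∀ i, i ≠ i0 → (A1 * A2 * ONE_ee φ * B) (X (e i)) = rename e (φ (X i)) := by
    intro i hi
    rw [AlgEquiv.mul_apply, AlgEquiv.mul_apply, hB _ (fun h => hi (hinj h)), hext.1 i, hAr]
  have hval0 : (A1 * A2 * ONE_ee φ * B) (X (e i0)) =
      rename e (φ (X i0) - monomial s c) - C c * (X u * Q + P * X v + X u * X v) := by
    have hu2 : ONE_ee φ (X u) = X u := hext.2 0
    have hv2 : ONE_ee φ (X v) = X v := hext.2 1
    have hm : (monomial s c : MvPolynomial (Fin n) k) = C c * (monomial p 1 * monomial q 1) := by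
      rw [monomial_mul, C_mul_monomial, ← hpq, one_mul, mul_one]
    have hC2 : ∀ (E : Au k (n + 2)) (a : k), E (C a) = C a := fun E a => E.commutes a
    rw [AlgEquiv.mul_apply, AlgEquiv.mul_apply, hBi, map_add, hext.1 i0, map_mul, map_mul, hC2,
      hu2, hv2, map_add, hAr, map_mul, map_mul, hC2, hAu, hAv, hm, map_sub, map_mul, map_mul,
      rename_C, ← hP, ← hQ, C_neg]
    ring
  have hvalu : (A1 * A2 * ONE_ee φ * B) (X u) = X u + P := by
    have hu2 : ONE_ee φ (X u) = X u := hext.2 0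
    rw [AlgEquiv.mul_apply, AlgEquiv.mul_apply, hB _ (hue i0), hu2, hAu]
  have hvalv : (A1 * A2 * ONE_ee φ * B) (X v) = X v + Q := by
    have hv2 : ONE_ee φ (X v) = X v := hext.2 1
    rw [AlgEquiv.mul_apply, AlgEquiv.mul_apply, hB _ (hve i0), hv2, hAv]
  -- degrees
  have hPd : P.totalDegree ≤ 2 := by
    refine (totalDegree_rename_le _ _).trans ?_
    refine (totalDegree_monomial_le _ _).trans ?_
    exact hpd.le
  have hQd : Q.totalDegree ≤ d - 2 := by
    refine (totalDegree_rename_le _ _).trans ?_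
    refine (totalDegree_monomial_le _ _).trans ?_
    show q.degree ≤ d - 2
    omega
  have hXd : ∀ w : Fin (n + 2), (X w : MvPolynomial (Fin (n + 2)) k).totalDegree ≤ 1 :=
    fun w => (totalDegree_X w).le
  have hRd : (C c * (X u * Q + P * X v + X u * X v)).totalDegree < d := by
    have h1 := totalDegree_mul (C c) (X u * Q + P * X v + X u * X v)
    rw [totalDegree_C, zero_add] at h1
    have h2 := totalDegree_add (X u * Q + P * X v) (X u * X v)
    have h3 := totalDegree_add (X u * Q) (P * X v)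
    have h4 := totalDegree_mul (X u) Q
    have h5 := totalDegree_mul P (X v)
    have h6 := totalDegree_mul (X u : MvPolynomial (Fin (n + 2)) k) (X v)
    have h7 := hXd u
    have h8 := hXd v
    omega
  have hGd : (rename e (φ (X i0) - monomial s c)).totalDegree ≤ d := by
    refine (totalDegree_rename_le _ _).trans ?_
    refine (totalDegree_sub _ _).trans (max_le (htd i0) ?_)
    refine (totalDegree_monomial_le _ _).trans ?_
    exact hs2.le
  have hud : (X u + P).totalDegree < d := by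
    have h1 := totalDegree_add (X u) P
    have h7 := hXd u
    omega
  have hvd : (X v + Q).totalDegree < d := by
    have h1 := totalDegree_add (X v) Q
    have h7 := hXd v
    omega
  refine ⟨A1 * A2 * ONE_ee φ * B, ⟨A1 * A2, ?_, B, ?_, ONE_ee φ, hext, rfl⟩, ?_, ?_⟩
  · refine Subgroup.mul_mem _ (Subgroup.subset_closure (Or.inl ⟨u, P, hvars u _ hue, hA1u, hA1⟩))
      (Subgroup.subset_closure (Or.inl ⟨v, Q, hvars v _ hve, hA2v, hA2⟩))
  · exact Subgroup.subset_closure (Or.inl ⟨e i0, _, hBv, hBi, hB⟩)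
  · intro w
    refine Fin.addCases (fun i => ?_) (fun j => ?_) w
    · by_cases hi : i = i0
      · rw [hi]
        show ((A1 * A2 * ONE_ee φ * B) (X (e i0))).totalDegree ≤ d
        rw [hval0]
        exact (totalDegree_sub _ _).trans (max_le hGd hRd.le)
      · show ((A1 * A2 * ONE_ee φ * B) (X (e i))).totalDegree ≤ d
        rw [hval1 i hi]
        exact (totalDegree_rename_le _ _).trans (htd i)
    · fin_cases j
      · show ((A1 * A2 * ONE_ee φ * B) (X u)).totalDegree ≤ d
        rw [hvalu]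
        exact hud.le
      · show ((A1 * A2 * ONE_ee φ * B) (X v)).totalDegree ≤ d
        rw [hvalv]
        exact hvd.le
  · have hsum : topNum (A1 * A2 * ONE_ee φ * B) d =
        ∑ i : Fin n, ONE_TT ((A1 * A2 * ONE_ee φ * B) (X (e i))) d +
          (ONE_TT ((A1 * A2 * ONE_ee φ * B) (X u)) d +
            ONE_TT ((A1 * A2 * ONE_ee φ * B) (X v)) d) := by
      unfold topNum
      rw [Fin.sum_univ_add, Fin.sum_univ_two]
      rfl
    rw [hsum, hvalu, hvalv, ONE_L1 _ _ hud, ONE_L1 _ _ hvd, add_zero, add_zero]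
    have h0 : ONE_TT ((A1 * A2 * ONE_ee φ * B) (X (e i0))) d + 1 ≤ ONE_TT (φ (X i0)) d := by
      rw [hval0]
      have h1 := ONE_L3 (rename e (φ (X i0) - monomial s c))
        (C c * (X u * Q + P * X v + X u * X v)) d hRd
      have h2 := ONE_L2 e hinj (φ (X i0) - monomial s c) d
      have h3 := ONE_L4 (φ (X i0)) s d hs1 hs2
      rw [← hc] at h3
      omega
    have h1 : ∀ i ∈ (Finset.univ : Finset (Fin n)).erase i0,
        ONE_TT ((A1 * A2 * ONE_ee φ * B) (X (e i))) d ≤ ONE_TT (φ (X i)) d := by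
      intro i hi
      rw [hval1 i (Finset.ne_of_mem_erase hi)]
      exact ONE_L2 e hinj _ d
    have h2 := Finset.sum_le_sum h1
    have h3 := Finset.add_sum_erase (Finset.univ : Finset (Fin n))
      (fun i => ONE_TT ((A1 * A2 * ONE_ee φ * B) (X (e i))) d) (Finset.mem_univ i0)
    have h4 := Finset.add_sum_erase (Finset.univ : Finset (Fin n))
      (fun i => ONE_TT (φ (X i)) d) (Finset.mem_univ i0)
    have h5 : ∑ i : Fin n, ONE_TT (φ (X i)) d = N + 1 := htop
    omega

end

end Pool.GR
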