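import Mathlib
import Pool.Agent.Work.MP_91aed7_am.Interface

/-!
# Stable tameness reduces to gradient automorphisms of degree at most three (MP_91aed7_ag)
-/

set_option autoImplicit false

namespace Pool.GR

noncomputable section

open MvPolynomial Pool.AM

/-- automorphisms of `k[x_1, ..., x_n]` -/
abbrev Au (k : Type) [Field k] (n : ℕ) : Type :=
  MvPolynomial (Fin n) k ≃ₐ[k] MvPolynomial (Fin n) k

/-- `τ` is the extension of `φ` by the identity on `l` further variables -/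
def IsExt {k : Type} [Field k] {n : ℕ} (φ : Au k n) (l : ℕ) (τ : Au k (n + l)) : Prop :=
  (∀ i : Fin n, τ (X (Fin.castAdd l i)) = rename (Fin.castAdd l) (φ (X i))) ∧
  ∀ j : Fin l, τ (X (Fin.natAdd n j)) = X (Fin.natAdd n j)

/-- stably tame (`Tame k N` is generated by the automorphisms of degree at most one and the
elementary automorphisms) -/
def StTame {k : Type} [Field k] {n : ℕ} (φ : Au k n) : Prop :=
  ∃ l : ℕ, 0 < l ∧ ∃ τ ∈ Tame k (n + l), IsExt φ l τ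

/-- `ψ` is the gradient of `g` for the hyperbolic form: `ψ(x_i) = ∂g/∂y_i`, `ψ(y_i) = ∂g/∂x_i` -/
def IsGrad {k : Type} [Field k] {n : ℕ} (g : MvPolynomial (Fin (n + n)) k)
    (ψ : Au k (n + n)) : Prop :=
  ∀ i : Fin n, ψ (X (Fin.castAdd n i)) = pderiv (Fin.natAdd n i) g ∧
    ψ (X (Fin.natAdd n i)) = pderiv (Fin.castAdd n i) g

/-- AFF: automorphisms of degree at most one are products of elementary ones and scalings -/
def S_AFF : Prop := ∀ (k : Type) [Field k] (n : ℕ) (σ : Au k n),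
  (∀ i : Fin n, (σ (X i)).totalDegree ≤ 1) → σ ∈ Tm k (Fin n)

/-- EXTI: extension along an injection of the variables -/
def S_EXTI : Prop := ∀ (k : Type) [Field k] (σ κ : Type) (e : σ → κ), Function.Injective e →
  ∀ τ ∈ Tm k σ, ∃ T ∈ Tm k κ, (∀ a : σ, T (X (e a)) = rename e (τ (X a))) ∧
    ∀ v ∉ Set.range e, T (X v) = X v

/-- INFI: the infinite extension of a stably tame automorphism is tame -/
def S_INFI : Prop := ∀ (k : Type) [Field k] (n : ℕ) (φ : Au k n), StTame φ →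
  ∀ Φ : PS k n ≃ₐ[k] PS k n, ExtOf φ Φ → Φ ∈ Tm k (Vr n)

/-- INFD: the converse -/
def S_INFD : Prop := ∀ (k : Type) [Field k] (n : ℕ) (φ : Au k n)
  (Φ : PS k n ≃ₐ[k] PS k n), ExtOf φ Φ → Φ ∈ Tm k (Vr n) → StTame φ

/-- MAT: matrices over `k[x]` with constant determinant act tamely on the `y_j` -/
def S_MAT : Prop := ∀ (k : Type) [Field k] (n : ℕ)
  (A : Matrix (Fin n) (Fin n) (MvPolynomial (Fin n) k)) (c : k), c ≠ 0 → A.det = C c →
  ∃ μ ∈ Tm k (Vr n), (∀ i : Fin n, μ (X (Sum.inl i)) = X (Sum.inl i)) ∧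
    (∀ a : Fin n, μ (X (Sum.inr (a : ℕ)))
      = ∑ b : Fin n, rename Sum.inl (A a b) * X (Sum.inr (b : ℕ))) ∧
    ∀ j : ℕ, n ≤ j → μ (X (Sum.inr j)) = X (Sum.inr j)

/-- `ψ` is the lift of `φ`: `x_i ↦ φ(x_i)`, `y_i ↦ Σ_j (∂φ(x_j)/∂x_i) y_j` -/
def IsLift {k : Type} [Field k] {n : ℕ} (φ : Au k n) (ψ : Au k (n + n)) : Prop :=
  ∀ i : Fin n, ψ (X (Fin.castAdd n i)) = rename (Fin.castAdd n) (φ (X i)) ∧
    ψ (X (Fin.natAdd n i)) =
      ∑ j : Fin n, rename (Fin.castAdd n) (pderiv i (φ (X j))) * X (Fin.natAdd n j)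

/-- LIFT: the lift exists -/
def S_LIFT : Prop := ∀ (k : Type) [Field k] (n : ℕ) (φ : Au k n), ∃ ψ : Au k (n + n), IsLift φ ψ

/-- GRAD: the lift is the gradient of `Σ_j y_j φ(x_j)` -/
def S_GRAD : Prop := ∀ (k : Type) [Field k] (n d : ℕ) (φ : Au k n) (ψ : Au k (n + n)),
  IsLift φ ψ → (∀ i, (φ (X i)).totalDegree ≤ d) →
    ∃ g : MvPolynomial (Fin (n + n)) k, g.totalDegree ≤ d + 1 ∧ IsGrad g ψ

/-- CMP: if the lift is stably tame then so is `φ` -/
def S_CMP : Prop := ∀ (k : Type) [Field k] (n : ℕ) (φ : Au k n) (ψ : Au k (n + n)),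
  IsLift φ ψ → StTame ψ → StTame φ

/-- `φ'` is a composite `A φ_ext B` with `A`, `B` tame, two more variables -/
def Step {k : Type} [Field k] {n : ℕ} (φ : Au k n) (φ' : Au k (n + 2)) : Prop :=
  ∃ A ∈ Tm k (Fin (n + 2)), ∃ B ∈ Tm k (Fin (n + 2)), ∃ φ2 : Au k (n + 2),
    IsExt φ 2 φ2 ∧ φ' = A * φ2 * B

/-- STP: a step does not change stable tameness -/
def S_STP : Prop := ∀ (k : Type) [Field k] (n : ℕ) (φ : Au k n) (φ' : Au k (n + 2)),
  Step φ φ' → StTame φ' → StTame φ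

/-- number of monomials of degree `d` in the components of `φ` -/
def topNum {k : Type} [Field k] {n : ℕ} (φ : Au k n) (d : ℕ) : ℕ :=
  ∑ i : Fin n, ((φ (X i)).support.filter (fun s => s.degree = d)).card

/-- ONE: one step of the reduction of the degree -/
def S_ONE : Prop := ∀ (k : Type) [Field k] (n d N : ℕ) (φ : Au k n), 4 ≤ d →
  (∀ i, (φ (X i)).totalDegree ≤ d) → topNum φ d = N + 1 →
  ∃ φ' : Au k (n + 2), Step φ φ' ∧ (∀ i, (φ' (X i)).totalDegree ≤ d) ∧ topNum φ' d ≤ N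

/-- DEG: reduction to degree at most three -/
def S_DEG : Prop := ∀ (k : Type) [Field k] (n : ℕ) (φ : Au k n),
  ∃ (m : ℕ) (φ' : Au k m), (∀ i, (φ' (X i)).totalDegree ≤ 3) ∧ (StTame φ' → StTame φ)

/-- the theorem -/
def Target : Prop := ∀ (k : Type) [Field k],
  (∀ (n : ℕ) (φ : Au k n), StTame φ) ↔
    ∀ (n : ℕ) (g : MvPolynomial (Fin (n + n)) k) (ψ : Au k (n + n)),
      g.totalDegree ≤ 4 → IsGrad g ψ → StTame ψ

/-- the assembly -/
theorem assembly (hL : S_LIFT) (hG : S_GRAD) (hC : S_CMP) (hD : S_DEG) : Target := by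
  intro k _
  refine ⟨fun h n g ψ _ _ => h _ ψ, fun h n φ => ?_⟩
  obtain ⟨m, φ', h3, himp⟩ := hD k n φ
  apply himp
  obtain ⟨ψ, hψ⟩ := hL k m φ'
  obtain ⟨g, hg, hgr⟩ := hG k m 3 φ' ψ hψ h3
  exact hC k m φ' ψ hψ (h m g ψ hg hgr)

end

end Pool.GR
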